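import Mathlib

/-!
Finite families of leaves of a decision tree which queries independent bits with bias `p`:
comparison of the law of the leaf under `p` and under `1 / 2`.
-/

set_option autoImplicit false

namespace Pool.Agent.Zk60.NC

open Finset

variable {ι : Type*}

/-- The weight of a leaf with `o i` positive and `c i` negative answers. -/
noncomputable def wt (o c : ι → ℕ) (p : ℝ) (i : ι) : ℝ := p ^ o i * (1 - p) ^ c i

/-- The weights of the leaves add up to one for all `p`. -/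
def Tree (S : Finset ι) (o c : ι → ℕ) : Prop :=
  ∀ p : ℝ, 0 ≤ p → p ≤ 1 → ∑ i ∈ S, wt o c p i = 1

theorem wt_nonneg (o c : ι → ℕ) {p : ℝ} (h0 : 0 ≤ p) (h1 : p ≤ 1) (i : ι) : 0 ≤ wt o c p i :=
  mul_nonneg (pow_nonneg h0 _) (pow_nonneg (by linarith) _)

theorem wt_pos (o c : ι → ℕ) {p : ℝ} (h0 : 0 < p) (h1 : p < 1) (i : ι) : 0 < wt o c p i :=
  mul_pos (pow_pos h0 _) (pow_pos (by linarith) _)

theorem gen (o c : ι → ℕ) {α β : ℝ} (h : 0 < α + β) (i : ι) :
    α ^ o i * β ^ c i = wt o c (α / (α + β)) i * (α + β) ^ (o i + c i) := by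
  unfold wt
  have h1 : 1 - α / (α + β) = β / (α + β) := by field_simp; ring
  rw [h1, div_pow, div_pow, pow_add]
  field_simp

theorem sum_gen_le {S : Finset ι} {o c : ι → ℕ} (hT : Tree S o c) {α β : ℝ} (hα : 0 ≤ α)
    (hβ : 0 ≤ β) (h1 : 1 ≤ α + β) {N : ℕ} (hN : ∀ i ∈ S, o i + c i ≤ N) :
    ∑ i ∈ S, α ^ o i * β ^ c i ≤ (α + β) ^ N := by
  have hpos : 0 < α + β := by linarith
  have hp0 : 0 ≤ α / (α + β) := by positivity
  have hp1 : α / (α + β) ≤ 1 := by rw [div_le_one hpos]; linarith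
  calc ∑ i ∈ S, α ^ o i * β ^ c i
      = ∑ i ∈ S, wt o c (α / (α + β)) i * (α + β) ^ (o i + c i) :=
        Finset.sum_congr rfl (fun i _ => gen o c hpos i)
    _ ≤ ∑ i ∈ S, wt o c (α / (α + β)) i * (α + β) ^ N := by
        refine Finset.sum_le_sum (fun i hi => ?_)
        exact mul_le_mul_of_nonneg_left (pow_le_pow_right₀ h1 (hN i hi)) (wt_nonneg o c hp0 hp1 i)
    _ = (α + β) ^ N := by rw [← Finset.sum_mul, hT _ hp0 hp1, one_mul]

/-! ### moments of the difference `o - c` at `p = 1/2` -/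

/-- The generating function of `(o, c)` at `p = 1/2`. -/
theorem gf {S : Finset ι} {o c : ι → ℕ} (hT : Tree S o c) {t : ℝ} (h0 : -1 ≤ t) (h1 : t ≤ 1) :
    ∑ i ∈ S, wt o c (1/2) i * ((1 + t) ^ o i * (1 - t) ^ c i) = 1 := by
  refine Eq.trans (Finset.sum_congr rfl (fun i _ => ?_))
    (hT ((1 + t) / 2) (by linarith) (by linarith))
  unfold wt
  have e1 : (1 - (1 + t) / 2 : ℝ) = (1 / 2) * (1 - t) := by ring
  have e2 : ((1 + t) / 2 : ℝ) = (1 / 2) * (1 + t) := by ring
  have e3 : (1 - (1 / 2) : ℝ) = 1 / 2 := by ring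
  rw [e1, e2, e3, mul_pow, mul_pow]
  ring

open Polynomial in
theorem gf_poly {S : Finset ι} {o c : ι → ℕ} (hT : Tree S o c) :
    ∑ i ∈ S, C (wt o c (1/2) i) * ((1 + X) ^ o i * (1 - X) ^ c i) = (1 : ℝ[X]) := by
  apply Polynomial.eq_of_infinite_eval_eq
  apply Set.Infinite.mono (s := Set.Icc (-1 : ℝ) 1)
  · intro t ht
    simp only [Set.mem_ofPred_eq, Polynomial.eval_finsetSum, eval_mul, eval_C, eval_pow, eval_add,
      eval_one, eval_X, eval_sub]
    exact gf hT ht.1 ht.2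
  · exact Set.Icc_infinite (by norm_num)

open Polynomial in
theorem deriv_one (m n : ℕ) :
    (derivative (((1 + X) ^ m * (1 - X) ^ n) : ℝ[X])).eval 0 = (m : ℝ) - n := by
  simp [derivative_mul, derivative_pow]
  ring

open Polynomial in
theorem deriv_two (m n : ℕ) :
    (derivative (derivative (((1 + X) ^ m * (1 - X) ^ n) : ℝ[X]))).eval 0 =
      ((m : ℝ) - n) ^ 2 - (m + n) := by
  rcases m with _ | m <;> rcases n with _ | n <;>
    simp [derivative_mul, derivative_pow, Nat.cast_succ] <;> ring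

theorem mean_zero {S : Finset ι} {o c : ι → ℕ} (hT : Tree S o c) :
    ∑ i ∈ S, wt o c (1/2) i * ((o i : ℝ) - c i) = 0 := by
  have h := congrArg (fun P : Polynomial ℝ => (Polynomial.derivative P).eval 0) (gf_poly hT)
  simp only [Polynomial.derivative_sum, Polynomial.derivative_C_mul, Polynomial.eval_finsetSum,
    Polynomial.eval_C_mul, deriv_one, Polynomial.derivative_one, Polynomial.eval_zero] at h
  exact h

theorem second_moment {S : Finset ι} {o c : ι → ℕ} (hT : Tree S o c) :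
    ∑ i ∈ S, wt o c (1/2) i * ((o i : ℝ) - c i) ^ 2 =
      ∑ i ∈ S, wt o c (1/2) i * ((o i + c i : ℕ) : ℝ) := by
  have h := congrArg (fun P : Polynomial ℝ =>
    (Polynomial.derivative (Polynomial.derivative P)).eval 0) (gf_poly hT)
  simp only [Polynomial.derivative_sum, Polynomial.derivative_C_mul, Polynomial.eval_finsetSum,
    Polynomial.eval_C_mul, deriv_two, Polynomial.derivative_one, Polynomial.derivative_zero,
    Polynomial.eval_zero] at h
  have h2 : ∑ i ∈ S, wt o c (1/2) i * ((o i : ℝ) - c i) ^ 2 -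
      ∑ i ∈ S, wt o c (1/2) i * ((o i + c i : ℕ) : ℝ) = 0 := by
    rw [← Finset.sum_sub_distrib, ← h]
    refine Finset.sum_congr rfl (fun i _ => ?_)
    push_cast
    ring
  linarith

theorem log_lower {t : ℝ} (h0 : -(1/2) ≤ t) : t - 2 * t ^ 2 ≤ Real.log (1 + t) := by
  have hp : 0 < 1 + t := by linarith
  have h1 := Real.one_sub_inv_le_log_of_pos hp
  refine le_trans ?_ h1
  have h2 : 1 - (1 + t)⁻¹ = t / (1 + t) := by field_simp; ring
  rw [h2, le_div_iff₀ hp]
  nlinarith [sq_nonneg t]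

theorem log_upper {t : ℝ} (h0 : -1 < t) : Real.log (1 + t) ≤ t := by
  have := Real.log_le_sub_one_of_pos (x := 1 + t) (by linarith)
  linarith

/-- Exponential moments of `o - c`. -/
theorem exp_moment {S : Finset ι} {o c : ι → ℕ} (hT : Tree S o c) {N : ℕ}
    (hN : ∀ i ∈ S, o i + c i ≤ N) {t : ℝ} (ht : |t| ≤ 1/2) :
    ∑ i ∈ S, wt o c (1/2) i * Real.exp (t * ((o i : ℝ) - c i)) ≤ Real.exp (2 * t ^ 2 * N) := by
  obtain ⟨h1, h2⟩ := abs_le.mp ht
  have key : ∀ i ∈ S, wt o c (1/2) i * Real.exp (t * ((o i : ℝ) - c i)) ≤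
      Real.exp (2 * t ^ 2 * N) * (wt o c (1/2) i * ((1 + t) ^ o i * (1 - t) ^ c i)) := by
    intro i hi
    have hw := wt_nonneg o c (p := 1/2) (by norm_num) (by norm_num) i
    have e1 : (1 + t) ^ o i = Real.exp (o i * Real.log (1 + t)) := by
      rw [mul_comm, Real.exp_mul, Real.exp_log (by linarith), Real.rpow_natCast]
    have e2 : (1 - t) ^ c i = Real.exp (c i * Real.log (1 - t)) := by
      rw [mul_comm, Real.exp_mul, Real.exp_log (by linarith), Real.rpow_natCast]
    have l1 := log_lower (t := t) (by linarith)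
    have l2 := log_lower (t := -t) (by linarith)
    have l2' : -t - 2 * t ^ 2 ≤ Real.log (1 - t) := by
      have : (1 + -t : ℝ) = 1 - t := by ring
      rw [this] at l2
      nlinarith
    have ho : (0 : ℝ) ≤ o i := Nat.cast_nonneg _
    have hc : (0 : ℝ) ≤ c i := Nat.cast_nonneg _
    have hD : (o i : ℝ) + c i ≤ N := by exact_mod_cast hN i hi
    have h3 : t * ((o i : ℝ) - c i) ≤
        2 * t ^ 2 * N + (o i * Real.log (1 + t) + c i * Real.log (1 - t)) := by
      have a1 := mul_le_mul_of_nonneg_left l1 ho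
      have a2 := mul_le_mul_of_nonneg_left l2' hc
      have a3 := mul_le_mul_of_nonneg_left hD (by positivity : (0:ℝ) ≤ 2 * t ^ 2)
      nlinarith
    calc wt o c (1/2) i * Real.exp (t * ((o i : ℝ) - c i))
        ≤ wt o c (1/2) i * Real.exp
            (2 * t ^ 2 * N + (o i * Real.log (1 + t) + c i * Real.log (1 - t))) :=
          mul_le_mul_of_nonneg_left (Real.exp_le_exp.mpr h3) hw
      _ = _ := by
          rw [Real.exp_add, Real.exp_add, e1, e2]
          ring
  calc ∑ i ∈ S, wt o c (1/2) i * Real.exp (t * ((o i : ℝ) - c i))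
      ≤ ∑ i ∈ S, Real.exp (2 * t ^ 2 * N) *
          (wt o c (1/2) i * ((1 + t) ^ o i * (1 - t) ^ c i)) := Finset.sum_le_sum key
    _ = Real.exp (2 * t ^ 2 * N) := by
        rw [← Finset.mul_sum, gf hT (by linarith) (by linarith), mul_one]

/-- Exponential moments of `|o - c|`. -/
theorem exp_abs_moment {S : Finset ι} {o c : ι → ℕ} (hT : Tree S o c) {N : ℕ}
    (hN : ∀ i ∈ S, o i + c i ≤ N) {t : ℝ} (ht0 : 0 ≤ t) (ht : t ≤ 1/2) :
    ∑ i ∈ S, wt o c (1/2) i * Real.exp (t * |(o i : ℝ) - c i|) ≤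
      2 * Real.exp (2 * t ^ 2 * N) := by
  have h1 := exp_moment hT hN (t := t) (by rw [abs_of_nonneg ht0]; exact ht)
  have h2 := exp_moment hT hN (t := -t) (by rw [abs_neg, abs_of_nonneg ht0]; exact ht)
  have h3 : ∑ i ∈ S, wt o c (1/2) i * Real.exp (t * |(o i : ℝ) - c i|) ≤
      ∑ i ∈ S, wt o c (1/2) i * Real.exp (t * ((o i : ℝ) - c i)) +
      ∑ i ∈ S, wt o c (1/2) i * Real.exp (-t * ((o i : ℝ) - c i)) := by
    rw [← Finset.sum_add_distrib]
    refine Finset.sum_le_sum (fun i _ => ?_)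
    have hw := wt_nonneg o c (p := 1/2) (by norm_num) (by norm_num) i
    rw [← mul_add]
    apply mul_le_mul_of_nonneg_left _ hw
    rcases abs_cases ((o i : ℝ) - c i) with ⟨h, _⟩ | ⟨h, _⟩
    · rw [h]
      have := Real.exp_pos (-t * ((o i : ℝ) - c i))
      linarith
    · rw [h]
      have := Real.exp_pos (t * ((o i : ℝ) - c i))
      have e : t * -((o i : ℝ) - c i) = -t * ((o i : ℝ) - c i) := by ring
      rw [e]
      linarith
  have e : (-t) ^ 2 = t ^ 2 := by ring
  rw [e] at h2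
  linarith

end Pool.Agent.Zk60.NC
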