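import Pool.Agent.Zk60.NC.Abs

/-!
Total variation distance of the laws of the leaf under `p` and under `1 / 2`.
-/

set_option autoImplicit false

namespace Pool.Agent.Zk60.NC

open Finset

variable {ι : Type*}

/-- The total variation distance between the laws of the leaf under `p` and under `1 / 2`. -/
noncomputable def tv (S : Finset ι) (o c : ι → ℕ) (p : ℝ) : ℝ :=
  (1 / 2) * ∑ i ∈ S, |wt o c p i - wt o c (1/2) i|

/-- The Hellinger affinity. -/
noncomputable def aff (S : Finset ι) (o c : ι → ℕ) (p : ℝ) : ℝ :=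
  ∑ i ∈ S, Real.sqrt (wt o c p i * wt o c (1/2) i)

theorem sqrt_split (o c : ι → ℕ) {p : ℝ} (h0 : 0 ≤ p) (h1 : p ≤ 1) (i : ι) :
    Real.sqrt (wt o c p i * wt o c (1/2) i) =
      (Real.sqrt (p / 2)) ^ o i * (Real.sqrt ((1 - p) / 2)) ^ c i := by
  have e : wt o c p i * wt o c (1/2) i =
      ((Real.sqrt (p / 2)) ^ o i * (Real.sqrt ((1 - p) / 2)) ^ c i) ^ 2 := by
    rw [mul_pow, ← pow_mul, ← pow_mul, mul_comm (o i) 2, mul_comm (c i) 2, pow_mul, pow_mul,
      Real.sq_sqrt (by linarith), Real.sq_sqrt (by linarith)]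
    unfold wt
    have e3 : (1 - (1 / 2) : ℝ) = 1 / 2 := by ring
    rw [e3, div_eq_mul_one_div p 2, div_eq_mul_one_div (1 - p) 2, mul_pow, mul_pow]
    ring
  rw [e, Real.sqrt_sq]
  exact mul_nonneg (pow_nonneg (Real.sqrt_nonneg _) _) (pow_nonneg (Real.sqrt_nonneg _) _)

theorem tv_nonneg (S : Finset ι) (o c : ι → ℕ) (p : ℝ) : 0 ≤ tv S o c p :=
  mul_nonneg (by norm_num) (Finset.sum_nonneg (fun _ _ => abs_nonneg _))

/-- `1 - tv` is the total mass of the minimum of the two laws. -/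
theorem one_sub_tv {S : Finset ι} {o c : ι → ℕ} (hT : Tree S o c) {p : ℝ} (h0 : 0 ≤ p)
    (h1 : p ≤ 1) : 1 - tv S o c p = ∑ i ∈ S, min (wt o c p i) (wt o c (1/2) i) := by
  have e : ∀ i, min (wt o c p i) (wt o c (1/2) i) =
      (1/2) * (wt o c p i + wt o c (1/2) i - |wt o c p i - wt o c (1/2) i|) := by
    intro i
    rcases le_total (wt o c p i) (wt o c (1/2) i) with h | h
    · rw [min_eq_left h, abs_of_nonpos (by linarith)]; ring
    · rw [min_eq_right h, abs_of_nonneg (by linarith)]; ring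
  rw [Finset.sum_congr rfl (fun i _ => e i), ← Finset.mul_sum, Finset.sum_sub_distrib,
    Finset.sum_add_distrib, hT p h0 h1, hT (1/2) (by norm_num) (by norm_num)]
  unfold tv
  ring

theorem tv_le_one {S : Finset ι} {o c : ι → ℕ} (hT : Tree S o c) {p : ℝ} (h0 : 0 ≤ p)
    (h1 : p ≤ 1) : tv S o c p ≤ 1 := by
  have h := one_sub_tv hT h0 h1
  have h2 : 0 ≤ ∑ i ∈ S, min (wt o c p i) (wt o c (1/2) i) :=
    Finset.sum_nonneg (fun i _ => le_min (wt_nonneg o c h0 h1 i)
      (wt_nonneg o c (by norm_num) (by norm_num) i))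
  linarith

theorem one_sub_tv_le {S : Finset ι} {o c : ι → ℕ} (hT : Tree S o c) {p : ℝ} (h0 : 0 ≤ p)
    (h1 : p ≤ 1) : 1 - tv S o c p ≤ aff S o c p := by
  rw [one_sub_tv hT h0 h1]
  refine Finset.sum_le_sum (fun i _ => ?_)
  have a := wt_nonneg o c h0 h1 i
  have b := wt_nonneg o c (p := 1/2) (by norm_num) (by norm_num) i
  apply Real.le_sqrt_of_sq_le
  rcases le_total (wt o c p i) (wt o c (1/2) i) with h | h
  · rw [min_eq_left h]; nlinarith
  · rw [min_eq_right h]; nlinarith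

theorem aff_sq_le {S : Finset ι} {o c : ι → ℕ} (hT : Tree S o c) {p : ℝ} (h0 : 0 ≤ p)
    (h1 : p ≤ 1) : aff S o c p ^ 2 ≤ 2 * (1 - tv S o c p) := by
  have hm : ∀ i, 0 ≤ min (wt o c p i) (wt o c (1/2) i) := fun i =>
    le_min (wt_nonneg o c h0 h1 i) (wt_nonneg o c (by norm_num) (by norm_num) i)
  have hM : ∀ i, 0 ≤ max (wt o c p i) (wt o c (1/2) i) := fun i =>
    le_max_of_le_left (wt_nonneg o c h0 h1 i)
  have e : ∀ i, Real.sqrt (wt o c p i * wt o c (1/2) i) =
      Real.sqrt (min (wt o c p i) (wt o c (1/2) i)) *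
        Real.sqrt (max (wt o c p i) (wt o c (1/2) i)) := by
    intro i
    rw [← Real.sqrt_mul (hm i), min_mul_max]
  have h2 : ∑ i ∈ S, max (wt o c p i) (wt o c (1/2) i) ≤ 2 := by
    calc ∑ i ∈ S, max (wt o c p i) (wt o c (1/2) i)
        ≤ ∑ i ∈ S, (wt o c p i + wt o c (1/2) i) := by
          refine Finset.sum_le_sum (fun i _ => ?_)
          have a := wt_nonneg o c h0 h1 i
          have b := wt_nonneg o c (p := 1/2) (by norm_num) (by norm_num) i
          exact max_le (by linarith) (by linarith)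
      _ = 2 := by
          rw [Finset.sum_add_distrib, hT p h0 h1, hT (1/2) (by norm_num) (by norm_num)]
          norm_num
  unfold aff
  rw [Finset.sum_congr rfl (fun i _ => e i)]
  calc (∑ i ∈ S, Real.sqrt (min (wt o c p i) (wt o c (1/2) i)) *
        Real.sqrt (max (wt o c p i) (wt o c (1/2) i))) ^ 2
      ≤ (∑ i ∈ S, Real.sqrt (min (wt o c p i) (wt o c (1/2) i)) ^ 2) *
        (∑ i ∈ S, Real.sqrt (max (wt o c p i) (wt o c (1/2) i)) ^ 2) :=
        Finset.sum_mul_sq_le_sq_mul_sq _ _ _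
    _ = (∑ i ∈ S, min (wt o c p i) (wt o c (1/2) i)) *
        (∑ i ∈ S, max (wt o c p i) (wt o c (1/2) i)) := by
        congr 1
        · exact Finset.sum_congr rfl (fun i _ => Real.sq_sqrt (hm i))
        · exact Finset.sum_congr rfl (fun i _ => Real.sq_sqrt (hM i))
    _ ≤ (∑ i ∈ S, min (wt o c p i) (wt o c (1/2) i)) * 2 :=
        mul_le_mul_of_nonneg_left h2 (Finset.sum_nonneg (fun i _ => hm i))
    _ = 2 * (1 - tv S o c p) := by rw [one_sub_tv hT h0 h1]; ring

/-- `tv ^ 2 ≤ 2 (1 - aff)`. -/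
theorem tv_sq_le {S : Finset ι} {o c : ι → ℕ} (hT : Tree S o c) {p : ℝ} (h0 : 0 ≤ p)
    (h1 : p ≤ 1) : tv S o c p ^ 2 ≤ 2 * (1 - aff S o c p) := by
  have hP := fun i => wt_nonneg o c h0 h1 i
  have hQ := fun i => wt_nonneg o c (p := 1/2) (by norm_num) (by norm_num) i
  have e : ∀ i, |wt o c p i - wt o c (1/2) i| =
      |Real.sqrt (wt o c p i) - Real.sqrt (wt o c (1/2) i)| *
        (Real.sqrt (wt o c p i) + Real.sqrt (wt o c (1/2) i)) := by
    intro i
    have h3 : wt o c p i - wt o c (1/2) i =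
        (Real.sqrt (wt o c p i) - Real.sqrt (wt o c (1/2) i)) *
        (Real.sqrt (wt o c p i) + Real.sqrt (wt o c (1/2) i)) := by
      have a := Real.sq_sqrt (hP i)
      have b := Real.sq_sqrt (hQ i)
      nlinarith
    rw [h3, abs_mul, abs_of_nonneg (add_nonneg (Real.sqrt_nonneg _) (Real.sqrt_nonneg _))]
  have s1 : ∑ i ∈ S, |Real.sqrt (wt o c p i) - Real.sqrt (wt o c (1/2) i)| ^ 2 =
      2 - 2 * aff S o c p := by
    have e2 : ∀ i, |Real.sqrt (wt o c p i) - Real.sqrt (wt o c (1/2) i)| ^ 2 =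
        wt o c p i + wt o c (1/2) i - 2 * Real.sqrt (wt o c p i * wt o c (1/2) i) := by
      intro i
      rw [sq_abs, Real.sqrt_mul (hP i)]
      have a := Real.sq_sqrt (hP i)
      have b := Real.sq_sqrt (hQ i)
      nlinarith
    rw [Finset.sum_congr rfl (fun i _ => e2 i), Finset.sum_sub_distrib, Finset.sum_add_distrib,
      hT p h0 h1, hT (1/2) (by norm_num) (by norm_num), ← Finset.mul_sum]
    unfold aff
    ring
  have s2 : ∑ i ∈ S, (Real.sqrt (wt o c p i) + Real.sqrt (wt o c (1/2) i)) ^ 2 ≤ 4 := by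
    calc ∑ i ∈ S, (Real.sqrt (wt o c p i) + Real.sqrt (wt o c (1/2) i)) ^ 2
        ≤ ∑ i ∈ S, (2 * wt o c p i + 2 * wt o c (1/2) i) := by
          refine Finset.sum_le_sum (fun i _ => ?_)
          have a := Real.sq_sqrt (hP i)
          have b := Real.sq_sqrt (hQ i)
          nlinarith [sq_nonneg (Real.sqrt (wt o c p i) - Real.sqrt (wt o c (1/2) i))]
      _ = 4 := by
          rw [Finset.sum_add_distrib, ← Finset.mul_sum, ← Finset.mul_sum, hT p h0 h1,
            hT (1/2) (by norm_num) (by norm_num)]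
          norm_num
  have haff : 0 ≤ 2 - 2 * aff S o c p := by
    rw [← s1]
    exact Finset.sum_nonneg (fun i _ => sq_nonneg _)
  have h4 : (∑ i ∈ S, |wt o c p i - wt o c (1/2) i|) ^ 2 ≤ (2 - 2 * aff S o c p) * 4 := by
    rw [Finset.sum_congr rfl (fun i _ => e i)]
    refine (Finset.sum_mul_sq_le_sq_mul_sq _ _ _).trans ?_
    rw [s1]
    exact mul_le_mul_of_nonneg_left s2 haff
  unfold tv
  rw [mul_pow]
  nlinarith

/-- Upper bound for the distance: `tv ≤ 2 |p - 1/2| (E D)^(1/2)`, squared. -/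
theorem tv_upper {S : Finset ι} {o c : ι → ℕ} (hT : Tree S o c) {p : ℝ} (h0 : 1/4 ≤ p)
    (h1 : p ≤ 3/4) : tv S o c p ^ 2 ≤
      4 * (p - 1/2) ^ 2 * ∑ i ∈ S, wt o c (1/2) i * ((o i + c i : ℕ) : ℝ) := by
  have hm := mean_zero hT
  set E := ∑ i ∈ S, wt o c (1/2) i * ((o i + c i : ℕ) : ℝ) with hE
  have hE0 : 0 ≤ E := Finset.sum_nonneg (fun i _ =>
    mul_nonneg (wt_nonneg o c (by norm_num) (by norm_num) i) (Nat.cast_nonneg _))
  have ho : ∑ i ∈ S, wt o c (1/2) i * (o i : ℝ) = E / 2 ∧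
      ∑ i ∈ S, wt o c (1/2) i * (c i : ℝ) = E / 2 := by
    have h3 : ∑ i ∈ S, wt o c (1/2) i * (o i : ℝ) + ∑ i ∈ S, wt o c (1/2) i * (c i : ℝ) = E := by
      rw [← Finset.sum_add_distrib, hE]
      refine Finset.sum_congr rfl (fun i _ => ?_)
      push_cast
      ring
    have h4 : ∑ i ∈ S, wt o c (1/2) i * (o i : ℝ) - ∑ i ∈ S, wt o c (1/2) i * (c i : ℝ) = 0 := by
      rw [← Finset.sum_sub_distrib, ← hm]
      refine Finset.sum_congr rfl (fun i _ => ?_)
      ring
    constructor <;> linarith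
  -- lower bound for the affinity
  have key : ∀ i ∈ S, wt o c (1/2) i * (1 + (1/2) * (o i * Real.log (2 * p) +
      c i * Real.log (2 * (1 - p)))) ≤ Real.sqrt (wt o c p i * wt o c (1/2) i) := by
    intro i _
    have hw := wt_nonneg o c (p := 1/2) (by norm_num) (by norm_num) i
    have e1 : wt o c p i = wt o c (1/2) i *
        Real.exp (o i * Real.log (2 * p) + c i * Real.log (2 * (1 - p))) := by
      rw [Real.exp_add, mul_comm (o i : ℝ), mul_comm (c i : ℝ), Real.exp_mul, Real.exp_mul,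
        Real.exp_log (by linarith), Real.exp_log (by linarith), Real.rpow_natCast,
        Real.rpow_natCast]
      unfold wt
      have e3 : (1 - (1 / 2) : ℝ) = 1 / 2 := by ring
      rw [e3, mul_pow, mul_pow]
      have e4 : (1 / 2 : ℝ) ^ o i * 2 ^ o i = 1 := by rw [← mul_pow]; norm_num
      have e5 : (1 / 2 : ℝ) ^ c i * 2 ^ c i = 1 := by rw [← mul_pow]; norm_num
      calc p ^ o i * (1 - p) ^ c i
          = p ^ o i * (1 - p) ^ c i * ((1 / 2 : ℝ) ^ o i * 2 ^ o i) *
            ((1 / 2 : ℝ) ^ c i * 2 ^ c i) := by rw [e4, e5]; ring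
        _ = _ := by ring
    have e2 : Real.sqrt (wt o c p i * wt o c (1/2) i) = wt o c (1/2) i *
        Real.exp ((1/2) * (o i * Real.log (2 * p) + c i * Real.log (2 * (1 - p)))) := by
      rw [e1]
      set z := o i * Real.log (2 * p) + c i * Real.log (2 * (1 - p)) with hz
      have e6 : wt o c (1/2) i * Real.exp z * wt o c (1/2) i =
          (wt o c (1/2) i * Real.exp ((1/2) * z)) ^ 2 := by
        have : Real.exp z = Real.exp ((1/2) * z) ^ 2 := by
          rw [sq, ← Real.exp_add]; congr 1; ring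
        rw [this]; ring
      rw [e6, Real.sqrt_sq (mul_nonneg hw (Real.exp_pos _).le)]
    rw [e2]
    apply mul_le_mul_of_nonneg_left _ hw
    have := Real.add_one_le_exp ((1/2) * (o i * Real.log (2 * p) + c i * Real.log (2 * (1 - p))))
    linarith
  have haff : 1 + (1/4) * E * (Real.log (2 * p) + Real.log (2 * (1 - p))) ≤ aff S o c p := by
    unfold aff
    refine le_trans (le_of_eq ?_) (Finset.sum_le_sum key)
    have e7 : ∀ i, wt o c (1/2) i * (1 + (1/2) * (o i * Real.log (2 * p) +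
        c i * Real.log (2 * (1 - p)))) = wt o c (1/2) i +
        (1/2) * Real.log (2 * p) * (wt o c (1/2) i * (o i : ℝ)) +
        (1/2) * Real.log (2 * (1 - p)) * (wt o c (1/2) i * (c i : ℝ)) := by
      intro i; ring
    rw [Finset.sum_congr rfl (fun i _ => e7 i), Finset.sum_add_distrib, Finset.sum_add_distrib,
      ← Finset.mul_sum, ← Finset.mul_sum, ho.1, ho.2, hT (1/2) (by norm_num) (by norm_num)]
    ring
  have hlog : -(8 * (p - 1/2) ^ 2) ≤ Real.log (2 * p) + Real.log (2 * (1 - p)) := by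
    rw [← Real.log_mul (by linarith) (by linarith)]
    have e8 : 2 * p * (2 * (1 - p)) = 1 + -(4 * (p - 1/2) ^ 2) := by ring
    rw [e8]
    have hx : (p - 1/2) ^ 2 ≤ 1/16 := by nlinarith
    have h5 := log_lower (t := -(4 * (p - 1/2) ^ 2)) (by nlinarith)
    nlinarith [sq_nonneg (p - 1/2)]
  have h6 := tv_sq_le hT (p := p) (by linarith) (by linarith)
  nlinarith

end Pool.Agent.Zk60.NC
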