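import Pool.Agent.Zk60.NC.Abs2

/-!
Lower bound for the distance of the laws of the leaf, and bounds for its complement.
-/

set_option autoImplicit false

namespace Pool.Agent.Zk60.NC

open Finset

variable {ι : Type*}

theorem sqle {a b : ℝ} (h : a ^ 2 ≤ b ^ 2) (hb : 0 ≤ b) : a ≤ b :=
  (le_abs_self a).trans (abs_le_of_sq_le_sq h hb)

theorem exp_bound (x : ℝ) : |Real.exp x - 1 - x| ≤ x ^ 2 * Real.exp |x| := by
  by_cases h : |x| ≤ 1
  · have h1 := Real.abs_exp_sub_one_sub_id_le h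
    have h2 : (1:ℝ) ≤ Real.exp |x| := Real.one_le_exp (abs_nonneg _)
    nlinarith [sq_nonneg x]
  · push Not at h
    have hx2 : 1 ≤ x ^ 2 := by
      rw [← sq_abs]; nlinarith
    have h0 : 0 ≤ Real.exp x - 1 - x := by
      have := Real.add_one_le_exp x; linarith
    rw [abs_of_nonneg h0]
    rcases abs_cases x with ⟨e, hx⟩ | ⟨e, hx⟩
    · rw [e] at h ⊢
      have := Real.exp_pos x
      nlinarith
    · rw [e] at h ⊢
      have h3 : Real.exp x ≤ 1 := Real.exp_le_one_iff.mpr hx.le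
      have h4 : (1:ℝ) ≤ Real.exp (-x) := Real.one_le_exp (by linarith)
      nlinarith

/-- The likelihood ratio. -/
theorem wt_ratio (o c : ι → ℕ) (e : ℝ) (i : ι) :
    wt o c (1/2 + e) i = wt o c (1/2) i * ((1 + 2 * e) ^ o i * (1 - 2 * e) ^ c i) := by
  unfold wt
  have e1 : (1 / 2 + e : ℝ) = (1 / 2) * (1 + 2 * e) := by ring
  have e2 : (1 - (1 / 2) * (1 + 2 * e) : ℝ) = (1 / 2) * (1 - 2 * e) := by ring
  have e3 : (1 - (1 / 2) : ℝ) = 1 / 2 := by ring
  rw [e1, e2, e3, mul_pow, mul_pow]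
  ring

theorem ratio_exp {o c : ℕ} {e : ℝ} (he : |e| ≤ 1/4) :
    (1 + 2 * e) ^ o * (1 - 2 * e) ^ c =
      Real.exp (o * Real.log (1 + 2 * e) + c * Real.log (1 - 2 * e)) := by
  obtain ⟨h1, h2⟩ := abs_le.mp he
  rw [Real.exp_add, mul_comm (o : ℝ), mul_comm (c : ℝ), Real.exp_mul, Real.exp_mul,
    Real.exp_log (by linarith), Real.exp_log (by linarith), Real.rpow_natCast, Real.rpow_natCast]

theorem log_diff {o c N : ℕ} {e : ℝ} (he : |e| ≤ 1/4) (hN : o + c ≤ N) :
    |(o * Real.log (1 + 2 * e) + c * Real.log (1 - 2 * e)) - 2 * e * ((o : ℝ) - c)| ≤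
      8 * e ^ 2 * N := by
  obtain ⟨h1, h2⟩ := abs_le.mp he
  have a1 := log_lower (t := 2 * e) (by linarith)
  have a2 := log_upper (t := 2 * e) (by linarith)
  have b1 := log_lower (t := -(2 * e)) (by linarith)
  have b2 := log_upper (t := -(2 * e)) (by linarith)
  have e0 : (1 + -(2 * e) : ℝ) = 1 - 2 * e := by ring
  rw [e0] at b1 b2
  have ho : (0 : ℝ) ≤ o := Nat.cast_nonneg _
  have hc : (0 : ℝ) ≤ c := Nat.cast_nonneg _
  have hD : (o : ℝ) + c ≤ N := by exact_mod_cast hN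
  have c1 := mul_le_mul_of_nonneg_left a1 ho
  have c2 := mul_le_mul_of_nonneg_left a2 ho
  have c3 := mul_le_mul_of_nonneg_left b1 hc
  have c4 := mul_le_mul_of_nonneg_left b2 hc
  have c5 := mul_le_mul_of_nonneg_left hD (by positivity : (0:ℝ) ≤ 8 * e ^ 2)
  rw [abs_le]
  constructor
  · nlinarith
  · nlinarith [mul_nonneg (by positivity : (0:ℝ) ≤ 8 * e ^ 2) (Nat.cast_nonneg N : (0:ℝ) ≤ N)]

/-- Pointwise bound for the second order error. -/
theorem err_bound {o c N : ℕ} (hN0 : 0 < N) {e : ℝ} (he : |e| ≤ 1/4) (hN : o + c ≤ N)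
    (hη : |e| * Real.sqrt N ≤ 1/8) :
    |(1 + 2 * e) ^ o * (1 - 2 * e) ^ c - 1 - 2 * e * ((o : ℝ) - c)| ≤
      524 * (|e| * Real.sqrt N) ^ 2 *
        Real.exp (1 / (2 * Real.sqrt N) * |(o : ℝ) - c|) := by
  have hNr : (0 : ℝ) < N := by exact_mod_cast hN0
  have hs : 0 < Real.sqrt N := Real.sqrt_pos.mpr hNr
  set s := Real.sqrt N with hsdef
  have hs2 : s ^ 2 = N := Real.sq_sqrt hNr.le
  set η := |e| * s with hηdef
  have hη0 : 0 ≤ η := by positivity
  set z := |(o : ℝ) - c| / s with hz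
  have hz0 : 0 ≤ z := by positivity
  rw [ratio_exp he]
  set l := (o * Real.log (1 + 2 * e) + c * Real.log (1 - 2 * e)) with hl
  have h1 := log_diff (o := o) (c := c) he hN
  rw [← hl] at h1
  have hη2 : η ^ 2 = e ^ 2 * N := by rw [hηdef, mul_pow, sq_abs, hs2]
  have h1' : |l - 2 * e * ((o : ℝ) - c)| ≤ 8 * η ^ 2 := by rw [hη2]; linarith
  have h2 : |2 * e * ((o : ℝ) - c)| = 2 * (η * z) := by
    rw [abs_mul, abs_mul, abs_of_pos (by norm_num : (0:ℝ) < 2), hηdef, hz]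
    field_simp
  have h3 : |l| ≤ 2 * (η * z) + 8 * η ^ 2 := by
    rw [← h2]
    have : l = 2 * e * ((o : ℝ) - c) + (l - 2 * e * ((o : ℝ) - c)) := by ring
    calc |l| = |2 * e * ((o : ℝ) - c) + (l - 2 * e * ((o : ℝ) - c))| := by rw [← this]
      _ ≤ _ := (abs_add_le _ _).trans (by linarith)
  have h4 : |l| ≤ z / 4 + 1 / 8 := by
    have : η * z ≤ 1/8 * z := mul_le_mul_of_nonneg_right hη hz0
    nlinarith
  have h5 : l ^ 2 ≤ η ^ 2 * (8 * z ^ 2 + 2) := by
    rw [← sq_abs]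
    have h6 : |l| ^ 2 ≤ (2 * (η * z) + 8 * η ^ 2) ^ 2 := pow_le_pow_left₀ (abs_nonneg _) h3 2
    refine h6.trans ?_
    have h7 : η ^ 2 ≤ 1/64 := by nlinarith
    have h8 : (2 * (η * z) + 8 * η ^ 2) ^ 2 ≤ 2 * (2 * (η * z)) ^ 2 + 2 * (8 * η ^ 2) ^ 2 := by
      nlinarith [sq_nonneg (2 * (η * z) - 8 * η ^ 2)]
    have h9 : (η ^ 2) * (η ^ 2) ≤ (η ^ 2) * (1/64) := mul_le_mul_of_nonneg_left h7 (sq_nonneg _)
    nlinarith
  have h10 : Real.exp |l| ≤ 2 * Real.exp (z / 4) := by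
    have : Real.exp |l| ≤ Real.exp (z / 4 + 1/8) := Real.exp_le_exp.mpr h4
    rw [Real.exp_add] at this
    have h11 : Real.exp (1/8) ≤ 2 := by
      have := Real.exp_one_lt_d9
      have h12 : Real.exp (1/8) ^ 8 = Real.exp 1 := by
        rw [← Real.exp_nat_mul]; norm_num
      by_contra hcon
      push Not at hcon
      have : (2:ℝ) ^ 8 ≤ Real.exp (1/8) ^ 8 := pow_le_pow_left₀ (by norm_num) hcon.le 8
      norm_num at this h12 ⊢
      linarith
    nlinarith [Real.exp_pos (z / 4)]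
  have h13 : z ^ 2 ≤ 32 * Real.exp (z / 4) := by
    have := Real.quadratic_le_exp_of_nonneg (x := z / 4) (by positivity)
    nlinarith
  have h14 : (1:ℝ) ≤ Real.exp (z / 4) := Real.one_le_exp (by positivity)
  have h15 : Real.exp (z / 4) * Real.exp (z / 4) = Real.exp (z / 2) := by
    rw [← Real.exp_add]; congr 1; ring
  have h16 : l ^ 2 * Real.exp |l| ≤ 516 * η ^ 2 * Real.exp (z / 2) := by
    calc l ^ 2 * Real.exp |l| ≤ (η ^ 2 * (8 * z ^ 2 + 2)) * (2 * Real.exp (z / 4)) :=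
          mul_le_mul h5 h10 (Real.exp_pos _).le (by positivity)
      _ ≤ (η ^ 2 * (258 * Real.exp (z / 4))) * (2 * Real.exp (z / 4)) := by
          apply mul_le_mul_of_nonneg_right _ (by positivity)
          apply mul_le_mul_of_nonneg_left _ (by positivity)
          linarith
      _ = 516 * η ^ 2 * (Real.exp (z / 4) * Real.exp (z / 4)) := by ring
      _ = 516 * η ^ 2 * Real.exp (z / 2) := by rw [h15]
  have h17 : (1:ℝ) ≤ Real.exp (z / 2) := Real.one_le_exp (by positivity)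
  have e1 : 1 / (2 * s) * |(o : ℝ) - c| = z / 2 := by
    rw [hz]; field_simp
  rw [e1]
  calc |Real.exp l - 1 - 2 * e * ((o : ℝ) - c)|
      = |(Real.exp l - 1 - l) + (l - 2 * e * ((o : ℝ) - c))| := by congr 1; ring
    _ ≤ |Real.exp l - 1 - l| + |l - 2 * e * ((o : ℝ) - c)| := abs_add_le _ _
    _ ≤ l ^ 2 * Real.exp |l| + 8 * η ^ 2 := add_le_add (exp_bound l) h1'
    _ ≤ 516 * η ^ 2 * Real.exp (z / 2) + 8 * η ^ 2 * Real.exp (z / 2) := by
        have : 8 * η ^ 2 ≤ 8 * η ^ 2 * Real.exp (z / 2) := le_mul_of_one_le_right (by positivity) h17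
        linarith
    _ = 524 * η ^ 2 * Real.exp (z / 2) := by ring

/-- Lower bound for the distance. -/
theorem tv_lower {S : Finset ι} {o c : ι → ℕ} (hT : Tree S o c) {N : ℕ} (hN0 : 0 < N)
    (hN : ∀ i ∈ S, o i + c i ≤ N) {c1 : ℝ} (hc1 : 0 < c1) (hc1' : c1 ≤ 1)
    (hD : c1 * N ≤ ∑ i ∈ S, wt o c (1/2) i * ((o i + c i : ℕ) : ℝ)) {p : ℝ} (hp : |p - 1/2| ≤ 1/4)
    (hη : |p - 1/2| * Real.sqrt N ≤ c1 ^ 2 / 234752) :
    c1 ^ 2 / 224 * (|p - 1/2| * Real.sqrt N) ≤ tv S o c p := by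
  have hNr : (0 : ℝ) < N := by exact_mod_cast hN0
  have hs : 0 < Real.sqrt N := Real.sqrt_pos.mpr hNr
  set s := Real.sqrt N with hsdef
  have hs2 : s ^ 2 = N := Real.sq_sqrt hNr.le
  have hs1 : 1 ≤ s := by
    rw [hsdef]; apply Real.one_le_sqrt.mpr; exact_mod_cast hN0
  set e := p - 1/2 with he
  have hpe : p = 1/2 + e := by rw [he]; ring
  set η := |e| * s with hηdef
  have hη0 : 0 ≤ η := by positivity
  have hc12 : c1 ^ 2 ≤ 1 := pow_le_one₀ hc1.le hc1'
  have hη8 : η ≤ 1/8 := by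
    refine hη.trans ?_
    rw [div_le_iff₀ (by norm_num)]; nlinarith
  have hw : ∀ i, 0 ≤ wt o c (1/2) i := fun i =>
    wt_nonneg o c (p := 1/2) (by norm_num) (by norm_num) i
  -- exponential moment
  have hexp : ∑ i ∈ S, wt o c (1/2) i * Real.exp (1 / (2 * s) * |(o i : ℝ) - c i|) ≤ 4 := by
    have h1 := exp_abs_moment hT hN (t := 1 / (2 * s)) (by positivity) (by
      rw [div_le_div_iff₀ (by positivity) (by norm_num)]; linarith)
    refine h1.trans ?_
    have e1 : 2 * (1 / (2 * s)) ^ 2 * (N : ℝ) = 1/2 := by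
      rw [← hs2]; field_simp
    rw [e1]
    have h2 : Real.exp (1/2) ≤ 2 := by
      have := Real.exp_one_lt_d9
      have h12 : Real.exp (1/2) ^ 2 = Real.exp 1 := by
        rw [← Real.exp_nat_mul]; norm_num
      by_contra hcon
      push Not at hcon
      have : (2:ℝ) ^ 2 ≤ Real.exp (1/2) ^ 2 := pow_le_pow_left₀ (by norm_num) hcon.le 2
      norm_num at this h12 ⊢
      linarith
    linarith
  -- fourth moment and second moment of z
  have hz4 : ∑ i ∈ S, wt o c (1/2) i * (|(o i : ℝ) - c i| / s) ^ 4 ≤ 1536 := by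
    calc ∑ i ∈ S, wt o c (1/2) i * (|(o i : ℝ) - c i| / s) ^ 4
        ≤ ∑ i ∈ S, 384 * (wt o c (1/2) i * Real.exp (1 / (2 * s) * |(o i : ℝ) - c i|)) := by
          refine Finset.sum_le_sum (fun i _ => ?_)
          have h3 : (|(o i : ℝ) - c i| / s) ^ 4 ≤
              384 * Real.exp (1 / (2 * s) * |(o i : ℝ) - c i|) := by
            have h4 := Real.pow_div_factorial_le_exp (1 / (2 * s) * |(o i : ℝ) - c i|)
              (by positivity) 4
            have h5 : (1 / (2 * s) * |(o i : ℝ) - c i|) ^ 4 =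
                (|(o i : ℝ) - c i| / s) ^ 4 / 16 := by
              rw [div_pow, mul_pow, div_pow, mul_pow]; ring
            rw [h5] at h4
            have h6 : ((Nat.factorial 4 : ℕ) : ℝ) = 24 := by norm_num [Nat.factorial]
            rw [h6, div_le_iff₀ (by norm_num)] at h4
            linarith
          have := mul_le_mul_of_nonneg_left h3 (hw i)
          linarith
      _ = 384 * ∑ i ∈ S, wt o c (1/2) i * Real.exp (1 / (2 * s) * |(o i : ℝ) - c i|) := by
          rw [← Finset.mul_sum]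
      _ ≤ 1536 := by linarith
  have hz2 : c1 ≤ ∑ i ∈ S, wt o c (1/2) i * (|(o i : ℝ) - c i| / s) ^ 2 := by
    have h7 : ∑ i ∈ S, wt o c (1/2) i * (|(o i : ℝ) - c i| / s) ^ 2 =
        (∑ i ∈ S, wt o c (1/2) i * ((o i + c i : ℕ) : ℝ)) / N := by
      rw [← second_moment hT, Finset.sum_div]
      refine Finset.sum_congr rfl (fun i _ => ?_)
      rw [div_pow, sq_abs, hs2]; ring
    rw [h7, le_div_iff₀ hNr]
    exact hD
  have hz1 : c1 ^ 2 / 112 ≤ ∑ i ∈ S, wt o c (1/2) i * (|(o i : ℝ) - c i| / s) := by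
    have h8 : ∀ z : ℝ, 0 ≤ z → z ^ 2 ≤ (56 / c1) * z + (c1 ^ 2 / 3136) * z ^ 4 := by
      intro z hz
      by_cases hzk : z ≤ 56 / c1
      · have : z ^ 2 ≤ (56 / c1) * z := by
          rw [sq]; exact mul_le_mul_of_nonneg_right hzk hz
        have h9 : 0 ≤ (c1 ^ 2 / 3136) * z ^ 4 := by positivity
        linarith
      · push Not at hzk
        have h9 : 1 ≤ (c1 ^ 2 / 3136) * z ^ 2 := by
          rw [div_lt_iff₀ hc1] at hzk
          have : (56:ℝ) ^ 2 ≤ (z * c1) ^ 2 := pow_le_pow_left₀ (by norm_num) hzk.le 2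
          have e3 : (c1 ^ 2 / 3136) * z ^ 2 = (z * c1) ^ 2 / 3136 := by ring
          rw [e3, le_div_iff₀ (by norm_num)]
          linarith
        have h10 : z ^ 2 ≤ (c1 ^ 2 / 3136) * z ^ 2 * z ^ 2 :=
          le_mul_of_one_le_left (sq_nonneg _) h9
        have h11 : 0 ≤ (56 / c1) * z := by positivity
        nlinarith
    have h12 : ∑ i ∈ S, wt o c (1/2) i * (|(o i : ℝ) - c i| / s) ^ 2 ≤
        (56 / c1) * ∑ i ∈ S, wt o c (1/2) i * (|(o i : ℝ) - c i| / s) +
        (c1 ^ 2 / 3136) * ∑ i ∈ S, wt o c (1/2) i * (|(o i : ℝ) - c i| / s) ^ 4 := by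
      rw [Finset.mul_sum, Finset.mul_sum, ← Finset.sum_add_distrib]
      refine Finset.sum_le_sum (fun i _ => ?_)
      have := mul_le_mul_of_nonneg_left (h8 (|(o i : ℝ) - c i| / s) (by positivity)) (hw i)
      linarith
    have h13 : (c1 ^ 2 / 3136) * ∑ i ∈ S, wt o c (1/2) i * (|(o i : ℝ) - c i| / s) ^ 4 ≤
        c1 / 2 := by
      calc _ ≤ (c1 ^ 2 / 3136) * 1536 := mul_le_mul_of_nonneg_left hz4 (by positivity)
        _ ≤ c1 / 2 := by nlinarith
    have h14 : c1 / 2 ≤ (56 / c1) * ∑ i ∈ S, wt o c (1/2) i * (|(o i : ℝ) - c i| / s) := by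
      linarith
    have h15 : c1 / 2 * (c1 / 56) ≤
        ∑ i ∈ S, wt o c (1/2) i * (|(o i : ℝ) - c i| / s) := by
      have h16 := mul_le_mul_of_nonneg_right h14 (by positivity : (0:ℝ) ≤ c1 / 56)
      have e4 : (56 / c1) * (∑ i ∈ S, wt o c (1/2) i * (|(o i : ℝ) - c i| / s)) * (c1 / 56) =
          ∑ i ∈ S, wt o c (1/2) i * (|(o i : ℝ) - c i| / s) := by
        field_simp
      rw [e4] at h16
      exact h16
    calc c1 ^ 2 / 112 = c1 / 2 * (c1 / 56) := by ring
      _ ≤ _ := h15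
  -- the sum
  have hsum : 2 * η * (∑ i ∈ S, wt o c (1/2) i * (|(o i : ℝ) - c i| / s)) -
      524 * η ^ 2 * (∑ i ∈ S, wt o c (1/2) i * Real.exp (1 / (2 * s) * |(o i : ℝ) - c i|)) ≤
      ∑ i ∈ S, |wt o c p i - wt o c (1/2) i| := by
    rw [Finset.mul_sum, Finset.mul_sum, ← Finset.sum_sub_distrib]
    refine Finset.sum_le_sum (fun i hi => ?_)
    have h17 := err_bound hN0 hp (hN i hi) hη8
    rw [hpe, wt_ratio]
    set L := (1 + 2 * e) ^ o i * (1 - 2 * e) ^ c i with hL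
    have e5 : wt o c (1/2) i * L - wt o c (1/2) i = wt o c (1/2) i * (L - 1) := by ring
    rw [e5, abs_mul, abs_of_nonneg (hw i)]
    have e6 : 2 * η * (wt o c (1/2) i * (|(o i : ℝ) - c i| / s)) -
        524 * η ^ 2 * (wt o c (1/2) i * Real.exp (1 / (2 * s) * |(o i : ℝ) - c i|)) =
        wt o c (1/2) i * (2 * |e| * |(o i : ℝ) - c i| -
          524 * η ^ 2 * Real.exp (1 / (2 * s) * |(o i : ℝ) - c i|)) := by
      rw [hηdef]; field_simp
    rw [e6]
    apply mul_le_mul_of_nonneg_left _ (hw i)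
    have h18 : |2 * e * ((o i : ℝ) - c i)| = 2 * |e| * |(o i : ℝ) - c i| := by
      rw [abs_mul, abs_mul, abs_of_pos (by norm_num : (0:ℝ) < 2)]
    have h19 : |2 * e * ((o i : ℝ) - c i)| ≤ |L - 1| + |L - 1 - 2 * e * ((o i : ℝ) - c i)| := by
      have e7 : 2 * e * ((o i : ℝ) - c i) = (L - 1) - (L - 1 - 2 * e * ((o i : ℝ) - c i)) := by
        ring
      calc |2 * e * ((o i : ℝ) - c i)|
          = |(L - 1) - (L - 1 - 2 * e * ((o i : ℝ) - c i))| := by rw [← e7]
        _ ≤ _ := abs_sub _ _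
    rw [h18] at h19
    have h17' : |L - 1 - 2 * e * ((o i : ℝ) - c i)| ≤ 524 * η ^ 2 *
        Real.exp (1 / (2 * s) * |(o i : ℝ) - c i|) := h17
    linarith
  unfold tv
  have h20 : 524 * η ^ 2 *
      (∑ i ∈ S, wt o c (1/2) i * Real.exp (1 / (2 * s) * |(o i : ℝ) - c i|)) ≤ 2096 * η ^ 2 := by
    have := mul_le_mul_of_nonneg_left hexp (by positivity : (0:ℝ) ≤ 524 * η ^ 2)
    linarith
  have h21 : 2 * η * (c1 ^ 2 / 112) ≤
      2 * η * (∑ i ∈ S, wt o c (1/2) i * (|(o i : ℝ) - c i| / s)) :=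
    mul_le_mul_of_nonneg_left hz1 (by positivity)
  have h22 : 2096 * η ^ 2 ≤ η * (c1 ^ 2 / 112) := by
    have : η * η ≤ η * (c1 ^ 2 / 234752) := mul_le_mul_of_nonneg_left hη hη0
    nlinarith
  linarith

/-- Upper bound for the complement of the distance. -/
theorem one_sub_tv_upper {S A : Finset ι} {o c : ι → ℕ} (hT : Tree S o c) (hA : A ⊆ S) {m : ℕ}
    (hm : ∀ i ∈ S, i ∉ A → m ≤ o i + c i) {p : ℝ} (h0 : 0 ≤ p) (h1 : p ≤ 1) :
    1 - tv S o c p ≤ Real.exp (-((p - 1/2) ^ 2 * m / 2)) +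
      Real.sqrt (∑ i ∈ A, wt o c (1/2) i) := by
  classical
  refine (one_sub_tv_le hT h0 h1).trans ?_
  unfold aff
  rw [← Finset.sum_sdiff hA]
  refine add_le_add ?_ ?_
  · set α := Real.sqrt (p / 2) with hα
    set β := Real.sqrt ((1 - p) / 2) with hβ
    have ha2 : α ^ 2 = p / 2 := Real.sq_sqrt (by linarith)
    have hb2 : β ^ 2 = (1 - p) / 2 := Real.sq_sqrt (by linarith)
    have ha0 : 0 ≤ α := Real.sqrt_nonneg _
    have hb0 : 0 ≤ β := Real.sqrt_nonneg _
    have hpos : 0 < α + β := by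
      rcases lt_or_eq_of_le ha0 with h | h
      · linarith
      · have : p = 0 := by
          have : α ^ 2 = 0 := by rw [← h]; ring
          linarith
        have hb3 : 0 < β ^ 2 := by rw [hb2, this]; norm_num
        have : β ≠ 0 := by intro hb; rw [hb] at hb3; norm_num at hb3
        have : 0 < β := lt_of_le_of_ne hb0 (Ne.symm this)
        linarith
    have hab : (α + β) ^ 2 ≤ Real.exp (-((p - 1/2) ^ 2)) := by
      have h3 : (α * β) ^ 2 = 1/16 - (p - 1/2) ^ 2 / 4 := by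
        rw [mul_pow, ha2, hb2]; ring
      have h4 : 2 * (α * β) ≤ 1/2 - (p - 1/2) ^ 2 := by
        have h5 : 0 ≤ α * β := mul_nonneg ha0 hb0
        have h6 : (2 * (α * β)) ^ 2 ≤ (1/2 - (p - 1/2) ^ 2) ^ 2 := by
          rw [mul_pow, h3]
          nlinarith [sq_nonneg ((p - 1/2) ^ 2)]
        have h7 : 0 ≤ 1/2 - (p - 1/2) ^ 2 := by nlinarith
        exact sqle h6 h7
      have h8 : (α + β) ^ 2 = 1/2 + 2 * (α * β) := by
        have : (α + β) ^ 2 = α ^ 2 + β ^ 2 + 2 * (α * β) := by ring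
        rw [this, ha2, hb2]; ring
      have h9 := Real.add_one_le_exp (-((p - 1/2) ^ 2))
      rw [h8]; linarith
    have hab1 : α + β ≤ Real.exp (-((p - 1/2) ^ 2 / 2)) := by
      have h10 : Real.exp (-((p - 1/2) ^ 2)) = Real.exp (-((p - 1/2) ^ 2 / 2)) ^ 2 := by
        rw [← Real.exp_nat_mul]; congr 1; push_cast; ring
      rw [h10] at hab
      exact sqle hab (Real.exp_pos _).le
    have hp0 : 0 ≤ α / (α + β) := by positivity
    have hp1 : α / (α + β) ≤ 1 := by rw [div_le_one hpos]; linarith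
    calc ∑ i ∈ S \ A, Real.sqrt (wt o c p i * wt o c (1/2) i)
        ≤ ∑ i ∈ S \ A, wt o c (α / (α + β)) i * Real.exp (-((p - 1/2) ^ 2 * m / 2)) := by
          refine Finset.sum_le_sum (fun i hi => ?_)
          rw [Finset.mem_sdiff] at hi
          rw [sqrt_split o c h0 h1, ← hα, ← hβ, gen o c hpos]
          apply mul_le_mul_of_nonneg_left _ (wt_nonneg o c hp0 hp1 i)
          calc (α + β) ^ (o i + c i) ≤ Real.exp (-((p - 1/2) ^ 2 / 2)) ^ (o i + c i) :=
                pow_le_pow_left₀ hpos.le hab1 _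
            _ ≤ Real.exp (-((p - 1/2) ^ 2 / 2)) ^ m := by
                apply pow_le_pow_of_le_one (Real.exp_pos _).le _ (hm i hi.1 hi.2)
                apply Real.exp_le_one_iff.mpr
                have := sq_nonneg (p - 1/2)
                linarith
            _ = Real.exp (-((p - 1/2) ^ 2 * m / 2)) := by
                rw [← Real.exp_nat_mul]; congr 1; ring
      _ = (∑ i ∈ S \ A, wt o c (α / (α + β)) i) * Real.exp (-((p - 1/2) ^ 2 * m / 2)) := by
          rw [Finset.sum_mul]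
      _ ≤ 1 * Real.exp (-((p - 1/2) ^ 2 * m / 2)) := by
          apply mul_le_mul_of_nonneg_right _ (Real.exp_pos _).le
          rw [← hT _ hp0 hp1]
          exact Finset.sum_le_sum_of_subset_of_nonneg Finset.sdiff_subset
            (fun i _ _ => wt_nonneg o c hp0 hp1 i)
      _ = _ := one_mul _
  · have hP := fun i => wt_nonneg o c h0 h1 i
    have hQ := fun i => wt_nonneg o c (p := 1/2) (by norm_num) (by norm_num) i
    apply Real.le_sqrt_of_sq_le
    calc (∑ i ∈ A, Real.sqrt (wt o c p i * wt o c (1/2) i)) ^ 2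
        = (∑ i ∈ A, Real.sqrt (wt o c p i) * Real.sqrt (wt o c (1/2) i)) ^ 2 := by
          rw [Finset.sum_congr rfl (fun i _ => Real.sqrt_mul (hP i) _)]
      _ ≤ (∑ i ∈ A, Real.sqrt (wt o c p i) ^ 2) * (∑ i ∈ A, Real.sqrt (wt o c (1/2) i) ^ 2) :=
          Finset.sum_mul_sq_le_sq_mul_sq _ _ _
      _ = (∑ i ∈ A, wt o c p i) * (∑ i ∈ A, wt o c (1/2) i) := by
          rw [Finset.sum_congr rfl (fun i _ => Real.sq_sqrt (hP i)),
            Finset.sum_congr rfl (fun i _ => Real.sq_sqrt (hQ i))]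
      _ ≤ 1 * (∑ i ∈ A, wt o c (1/2) i) := by
          apply mul_le_mul_of_nonneg_right _ (Finset.sum_nonneg (fun i _ => hQ i))
          rw [← hT p h0 h1]
          exact Finset.sum_le_sum_of_subset_of_nonneg hA (fun i _ _ => hP i)
      _ = _ := one_mul _

/-- Lower bound for the complement of the distance. -/
theorem one_sub_tv_lower {S A : Finset ι} {o c : ι → ℕ} (hT : Tree S o c) (hA : A ⊆ S) {N : ℕ}
    (hN : ∀ i ∈ A, o i + c i ≤ N) {p : ℝ} (h0 : 1/4 ≤ p) (h1 : p ≤ 3/4) :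
    (1/2) * (∑ i ∈ A, wt o c (1/2) i) ^ 4 * Real.exp (-(8 * (p - 1/2) ^ 2 * N)) ≤
      1 - tv S o c p := by
  classical
  have hp0 : 0 < p := by linarith
  have hq0 : 0 < 1 - p := by linarith
  have hP := fun i => wt_pos o c hp0 (by linarith) i
  have hQ := fun i => wt_pos o c (p := 1/2) (by norm_num) (by norm_num) i
  set α := Real.sqrt (1 / (8 * p)) with hα
  set β := Real.sqrt (1 / (8 * (1 - p))) with hβ
  have ha2 : α ^ 2 = 1 / (8 * p) := Real.sq_sqrt (by positivity)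
  have hb2 : β ^ 2 = 1 / (8 * (1 - p)) := Real.sq_sqrt (by positivity)
  have ha0 : 0 < α := Real.sqrt_pos.mpr (by positivity)
  have hb0 : 0 < β := Real.sqrt_pos.mpr (by positivity)
  have hpos : 0 < α + β := by linarith
  have hx : (p - 1/2) ^ 2 ≤ 1/16 := by nlinarith
  have hpq : p * (1 - p) = 1/4 - (p - 1/2) ^ 2 := by ring
  have hpq0 : 0 < p * (1 - p) := mul_pos hp0 hq0
  have hab : α + β ≤ Real.exp (4 * (p - 1/2) ^ 2) := by
    -- (α + β)^2 = (1/8)(1/(pq) + 2/sqrt(pq)) ≤ 1/(4 pq)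
    have h3 : (α * β) ^ 2 = 1 / (64 * (p * (1 - p))) := by
      rw [mul_pow, ha2, hb2]; field_simp; norm_num
    have h4 : 2 * (α * β) ≤ 1 / (8 * (p * (1 - p))) := by
      have h5 : (2 * (α * β)) ^ 2 ≤ (1 / (8 * (p * (1 - p)))) ^ 2 := by
        rw [mul_pow, h3, div_pow, mul_pow]
        rw [mul_one_div, div_le_div_iff₀ (by positivity) (by positivity)]
        nlinarith
      exact sqle h5 (by positivity)
    have h6 : (α + β) ^ 2 ≤ 1 / (4 * (p * (1 - p))) := by
      have e1 : (α + β) ^ 2 = α ^ 2 + β ^ 2 + 2 * (α * β) := by ring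
      rw [e1, ha2, hb2]
      have e2 : 1 / (8 * p) + 1 / (8 * (1 - p)) = 1 / (8 * (p * (1 - p))) := by
        field_simp; ring
      have e3 : 1 / (4 * (p * (1 - p))) = 1 / (8 * (p * (1 - p))) + 1 / (8 * (p * (1 - p))) := by
        field_simp; norm_num
      rw [e2, e3]
      linarith
    have h7 : 1 / (4 * (p * (1 - p))) ≤ Real.exp (8 * (p - 1/2) ^ 2) := by
      have h8 := log_lower (t := -(4 * (p - 1/2) ^ 2)) (by nlinarith)
      have e4 : 4 * (p * (1 - p)) = 1 + -(4 * (p - 1/2) ^ 2) := by rw [hpq]; ring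
      have h9 : 0 < 4 * (p * (1 - p)) := by linarith
      rw [← Real.log_le_iff_le_exp (by positivity), Real.log_div (by norm_num) h9.ne',
        Real.log_one, e4]
      nlinarith [sq_nonneg (p - 1/2)]
    have h10 : (α + β) ^ 2 ≤ Real.exp (4 * (p - 1/2) ^ 2) ^ 2 := by
      refine (h6.trans h7).trans (le_of_eq ?_)
      rw [← Real.exp_nat_mul]; congr 1; push_cast; ring
    exact sqle h10 (Real.exp_pos _).le
  have hr0 : 0 ≤ α / (α + β) := by positivity
  have hr1 : α / (α + β) ≤ 1 := by rw [div_le_one hpos]; linarith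
  -- the three sums
  set U := ∑ i ∈ A, Real.sqrt (wt o c p i * wt o c (1/2) i) with hU
  have hV : ∑ i ∈ A, α ^ o i * β ^ c i ≤ Real.exp (4 * (p - 1/2) ^ 2 * N) := by
    calc ∑ i ∈ A, α ^ o i * β ^ c i
        ≤ ∑ i ∈ A, wt o c (α / (α + β)) i * Real.exp (4 * (p - 1/2) ^ 2 * N) := by
          refine Finset.sum_le_sum (fun i hi => ?_)
          rw [gen o c hpos]
          apply mul_le_mul_of_nonneg_left _ (wt_nonneg o c hr0 hr1 i)
          calc (α + β) ^ (o i + c i) ≤ Real.exp (4 * (p - 1/2) ^ 2) ^ (o i + c i) :=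
                pow_le_pow_left₀ hpos.le hab _
            _ ≤ Real.exp (4 * (p - 1/2) ^ 2) ^ N :=
                pow_le_pow_right₀ (Real.one_le_exp (by positivity)) (hN i hi)
            _ = _ := by rw [← Real.exp_nat_mul]; congr 1; ring
      _ = (∑ i ∈ A, wt o c (α / (α + β)) i) * Real.exp (4 * (p - 1/2) ^ 2 * N) := by
          rw [Finset.sum_mul]
      _ ≤ 1 * Real.exp (4 * (p - 1/2) ^ 2 * N) := by
          apply mul_le_mul_of_nonneg_right _ (Real.exp_pos _).le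
          rw [← hT _ hr0 hr1]
          exact Finset.sum_le_sum_of_subset_of_nonneg hA (fun i _ _ => wt_nonneg o c hr0 hr1 i)
      _ = _ := one_mul _
  have hkey : ∀ i, wt o c (1/2) i = Real.sqrt (Real.sqrt (wt o c p i * wt o c (1/2) i)) *
      Real.sqrt (α ^ o i * β ^ c i) := by
    intro i
    have h11 : α ^ o i * β ^ c i = Real.sqrt (wt o c (1/2) i ^ 3 / wt o c p i) := by
      have h12 : (α ^ o i * β ^ c i) ^ 2 = wt o c (1/2) i ^ 3 / wt o c p i := by
        rw [mul_pow, ← pow_mul, ← pow_mul, mul_comm (o i) 2, mul_comm (c i) 2, pow_mul, pow_mul,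
          ha2, hb2]
        unfold wt
        have e3 : (1 - (1 / 2) : ℝ) = 1 / 2 := by ring
        rw [e3]
        have e5 : (1 / (8 * p)) ^ o i = ((1/2 : ℝ) ^ o i) ^ 3 / p ^ o i := by
          rw [← pow_mul, mul_comm (o i) 3, pow_mul, ← div_pow]
          congr 1
          field_simp
          norm_num
        have e6 : (1 / (8 * (1 - p))) ^ c i = ((1/2 : ℝ) ^ c i) ^ 3 / (1 - p) ^ c i := by
          rw [← pow_mul, mul_comm (c i) 3, pow_mul, ← div_pow]
          congr 1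
          field_simp
          norm_num
        rw [e5, e6, mul_pow]
        field_simp
      rw [← h12, Real.sqrt_sq (by positivity)]
    rw [h11, ← Real.sqrt_mul (Real.sqrt_nonneg _), ← Real.sqrt_mul (mul_pos (hP i) (hQ i)).le]
    have e7 : wt o c p i * wt o c (1/2) i * (wt o c (1/2) i ^ 3 / wt o c p i) =
        (wt o c (1/2) i ^ 2) ^ 2 := by
      have := (hP i).ne'
      field_simp
    rw [e7, Real.sqrt_sq (sq_nonneg _), Real.sqrt_sq (hQ i).le]
  have hU0 : 0 ≤ U := Finset.sum_nonneg (fun i _ => Real.sqrt_nonneg _)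
  have hCS : (∑ i ∈ A, wt o c (1/2) i) ^ 2 ≤ U * Real.exp (4 * (p - 1/2) ^ 2 * N) := by
    calc (∑ i ∈ A, wt o c (1/2) i) ^ 2
        = (∑ i ∈ A, Real.sqrt (Real.sqrt (wt o c p i * wt o c (1/2) i)) *
            Real.sqrt (α ^ o i * β ^ c i)) ^ 2 := by
          rw [← Finset.sum_congr rfl (fun i _ => hkey i)]
      _ ≤ (∑ i ∈ A, Real.sqrt (Real.sqrt (wt o c p i * wt o c (1/2) i)) ^ 2) *
          (∑ i ∈ A, Real.sqrt (α ^ o i * β ^ c i) ^ 2) :=
          Finset.sum_mul_sq_le_sq_mul_sq _ _ _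
      _ = U * (∑ i ∈ A, α ^ o i * β ^ c i) := by
          rw [Finset.sum_congr rfl (fun i _ => Real.sq_sqrt (Real.sqrt_nonneg _)),
            Finset.sum_congr rfl (fun i _ => Real.sq_sqrt (by positivity))]
      _ ≤ _ := mul_le_mul_of_nonneg_left hV hU0
  have hUaff : U ≤ aff S o c p :=
    Finset.sum_le_sum_of_subset_of_nonneg hA (fun i _ _ => Real.sqrt_nonneg _)
  have h13 := aff_sq_le hT (p := p) hp0.le (by linarith)
  set W := ∑ i ∈ A, wt o c (1/2) i with hW
  have hE : Real.exp (4 * (p - 1/2) ^ 2 * N) * Real.exp (-(4 * (p - 1/2) ^ 2 * N)) = 1 := by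
    rw [← Real.exp_add]; simp
  have h14 : W ^ 2 * Real.exp (-(4 * (p - 1/2) ^ 2 * N)) ≤ U := by
    have := mul_le_mul_of_nonneg_right hCS (Real.exp_pos (-(4 * (p - 1/2) ^ 2 * N))).le
    calc _ ≤ U * Real.exp (4 * (p - 1/2) ^ 2 * N) * Real.exp (-(4 * (p - 1/2) ^ 2 * N)) := this
      _ = U := by rw [mul_assoc, hE, mul_one]
  have h15 : (W ^ 2 * Real.exp (-(4 * (p - 1/2) ^ 2 * N))) ^ 2 ≤ aff S o c p ^ 2 :=
    pow_le_pow_left₀ (by positivity) (h14.trans hUaff) 2
  have e8 : (W ^ 2 * Real.exp (-(4 * (p - 1/2) ^ 2 * N))) ^ 2 =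
      W ^ 4 * Real.exp (-(8 * (p - 1/2) ^ 2 * N)) := by
    rw [mul_pow, ← Real.exp_nat_mul]
    congr 1
    · ring
    · congr 1; push_cast; ring
  rw [e8] at h15
  linarith

end Pool.Agent.Zk60.NC
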