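import Pool.Agent.Zk60.NC.Law

/-!
The total variation distance of the laws of the stopped exploration path, in terms of leaves.
-/

set_option autoImplicit false

namespace Pool.Agent.Zk60.NC

open H974 H984P H984H MeasureTheory Finset

instance : IsProbabilityMeasure perc := by rw [← law_half]; infer_instance

/-- The exploration path stopped at the first time at distance at least `R` from the origin. -/
noncomputable def stopped (R : ℝ) (ω : Conf) : ℕ → St := fun k => path ω (min k (exit R ω))

/-- The total variation distance between the laws of the stopped path under `p` and at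
criticality. -/
noncomputable def tvDist (R : ℝ) (p : unitInterval) : ℝ :=
  ⨆ S : Set (ℕ → St), |(law p).real {ω | stopped R ω ∈ S} - (law half).real {ω | stopped R ω ∈ S}|

theorem half_val : ((half : unitInterval) : ℝ) = 1/2 := rfl

theorem leaf_of_stopped {R : ℝ} {ω ω' : Conf} (h : stopped R ω' = stopped R ω) (N : ℕ) :
    leaf R N ω' = leaf R N ω := by
  have hk : ∀ k, path ω' (min k (exit R ω')) = path ω (min k (exit R ω)) := fun k => congrFun h k
  have he : exit R ω' = exit R ω := by
    rcases lt_trichotomy (exit R ω') (exit R ω) with h1 | h1 | h1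
    · exfalso
      have h2 := hk (exit R ω')
      rw [min_self, min_eq_left h1.le] at h2
      have h3 := exit_spec R ω'
      unfold gam at h3
      rw [h2] at h3
      exact absurd h3 (not_le.mpr (lt_exit h1))
    · exact h1
    · exfalso
      have h2 := hk (exit R ω)
      rw [min_self, min_eq_left h1.le] at h2
      have h3 := exit_spec R ω
      unfold gam at h3
      rw [← h2] at h3
      exact absurd h3 (not_le.mpr (lt_exit h1))
  rw [leaf_iff]
  apply conf_of_path
  intro k hk'
  have h4 : k ≤ exit R ω := hk'.trans (min_le_left _ _)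
  have h5 := hk k
  rw [he, min_eq_left h4] at h5
  exact h5

theorem stopped_of_leaf {R : ℝ} {ω ω' : Conf}
    (h : leaf R (ball R).card ω' = leaf R (ball R).card ω) : stopped R ω' = stopped R ω := by
  rw [leaf_iff] at h
  have ht : tau R (ball R).card ω = exit R ω := min_eq_left (exit_le R ω)
  have ht' : tau R (ball R).card ω' = exit R ω' := min_eq_left (exit_le R ω')
  have h1 := path_congr h
  have h2 := tau_congr h1
  rw [ht, ht'] at h2
  rw [ht] at h1
  funext k
  unfold stopped
  rw [h2]
  exact h1 _ (min_le_right _ _)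

/-- For sets of leaves. -/
theorem abs_le_tv {S : Finset (Finset Edg × Finset Edg)} (hT : Tree S no nc) {p : ℝ} (h0 : 0 ≤ p)
    (h1 : p ≤ 1) (T : Finset Edg × Finset Edg → Prop) [DecidablePred T] :
    |∑ x ∈ S.filter T, wt no nc p x - ∑ x ∈ S.filter T, wt no nc (1/2) x| ≤ tv S no nc p := by
  have e1 : ∑ x ∈ S.filter T, wt no nc p x - ∑ x ∈ S.filter T, wt no nc (1/2) x =
      ∑ x ∈ S.filter T, (wt no nc p x - wt no nc (1/2) x) := by
    rw [Finset.sum_sub_distrib]
  have e2 : ∑ x ∈ S.filter T, (wt no nc p x - wt no nc (1/2) x) +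
      ∑ x ∈ S.filter (fun x => ¬ T x), (wt no nc p x - wt no nc (1/2) x) = 0 := by
    rw [Finset.sum_filter_add_sum_filter_not, Finset.sum_sub_distrib, hT p h0 h1,
      hT (1/2) (by norm_num) (by norm_num), sub_self]
  have a1 := Finset.abs_sum_le_sum_abs (fun x => wt no nc p x - wt no nc (1/2) x) (S.filter T)
  have a2 := Finset.abs_sum_le_sum_abs (fun x => wt no nc p x - wt no nc (1/2) x)
    (S.filter (fun x => ¬ T x))
  have e3 : ∑ x ∈ S.filter T, |wt no nc p x - wt no nc (1/2) x| +
      ∑ x ∈ S.filter (fun x => ¬ T x), |wt no nc p x - wt no nc (1/2) x| =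
      ∑ x ∈ S, |wt no nc p x - wt no nc (1/2) x| := Finset.sum_filter_add_sum_filter_not _ _ _
  have e4 : |∑ x ∈ S.filter (fun x => ¬ T x), (wt no nc p x - wt no nc (1/2) x)| =
      |∑ x ∈ S.filter T, (wt no nc p x - wt no nc (1/2) x)| := by
    rw [← abs_neg]; congr 1; linarith
  rw [e1]
  unfold tv
  rw [e4] at a2
  linarith

theorem tv_attained {S : Finset (Finset Edg × Finset Edg)} (hT : Tree S no nc) {p : ℝ}
    (h0 : 0 ≤ p) (h1 : p ≤ 1) :
    tv S no nc p = ∑ x ∈ S.filter (fun x => wt no nc (1/2) x < wt no nc p x), wt no nc p x -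
      ∑ x ∈ S.filter (fun x => wt no nc (1/2) x < wt no nc p x), wt no nc (1/2) x := by
  classical
  set T := fun x : Finset Edg × Finset Edg => wt no nc (1/2) x < wt no nc p x with hTdef
  have e2 : ∑ x ∈ S.filter T, (wt no nc p x - wt no nc (1/2) x) +
      ∑ x ∈ S.filter (fun x => ¬ T x), (wt no nc p x - wt no nc (1/2) x) = 0 := by
    rw [Finset.sum_filter_add_sum_filter_not, Finset.sum_sub_distrib, hT p h0 h1,
      hT (1/2) (by norm_num) (by norm_num), sub_self]
  have e3 : ∑ x ∈ S.filter T, |wt no nc p x - wt no nc (1/2) x| +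
      ∑ x ∈ S.filter (fun x => ¬ T x), |wt no nc p x - wt no nc (1/2) x| =
      ∑ x ∈ S, |wt no nc p x - wt no nc (1/2) x| := Finset.sum_filter_add_sum_filter_not _ _ _
  have e4 : ∑ x ∈ S.filter T, |wt no nc p x - wt no nc (1/2) x| =
      ∑ x ∈ S.filter T, (wt no nc p x - wt no nc (1/2) x) := by
    refine Finset.sum_congr rfl (fun x hx => ?_)
    have := (Finset.mem_filter.mp hx).2
    exact abs_of_pos (sub_pos.mpr this)
  have e5 : ∑ x ∈ S.filter (fun x => ¬ T x), |wt no nc p x - wt no nc (1/2) x| =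
      - ∑ x ∈ S.filter (fun x => ¬ T x), (wt no nc p x - wt no nc (1/2) x) := by
    rw [← Finset.sum_neg_distrib]
    refine Finset.sum_congr rfl (fun x hx => ?_)
    have h := (Finset.mem_filter.mp hx).2
    have h' : ¬ (wt no nc (1/2) x < wt no nc p x) := h
    rw [abs_of_nonpos (by linarith)]
  unfold tv
  rw [← e3, e4, e5, ← Finset.sum_sub_distrib]
  linarith

theorem bdd (R : ℝ) (p : unitInterval) : BddAbove (Set.range (fun S : Set (ℕ → St) =>
    |(law p).real {ω | stopped R ω ∈ S} - (law half).real {ω | stopped R ω ∈ S}|)) := by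
  refine ⟨1, ?_⟩
  rintro _ ⟨S, rfl⟩
  have h1 : (law p).real {ω | stopped R ω ∈ S} ≤ 1 := measureReal_le_one
  have h2 : (law half).real {ω | stopped R ω ∈ S} ≤ 1 := measureReal_le_one
  have h3 : 0 ≤ (law p).real {ω | stopped R ω ∈ S} := measureReal_nonneg
  have h4 : 0 ≤ (law half).real {ω | stopped R ω ∈ S} := measureReal_nonneg
  show |_| ≤ _
  rw [abs_le]
  constructor <;> linarith

/-- A single event. -/
theorem le_tvDist (R : ℝ) (p : unitInterval) (S : Set (ℕ → St)) :
    |(law p).real {ω | stopped R ω ∈ S} - (law half).real {ω | stopped R ω ∈ S}| ≤ tvDist R p :=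
  le_ciSup (bdd R p) S

theorem tv_le_tvDist (R : ℝ) (N : ℕ) (p : unitInterval) :
    tv (leaves R N) no nc p ≤ tvDist R p := by
  classical
  rw [tv_attained (tree R N) p.2.1 p.2.2]
  set T := fun x : Finset Edg × Finset Edg => wt no nc (1/2) x < wt no nc p x with hTdef
  have h1 := event_leaf R N T p
  have h2 := event_leaf R N T half
  rw [half_val] at h2
  have h3 : {ω | T (leaf R N ω)} =
      {ω | stopped R ω ∈ {s | ∃ ω', stopped R ω' = s ∧ T (leaf R N ω')}} := by
    ext ω
    constructor
    · intro h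
      exact ⟨ω, rfl, h⟩
    · rintro ⟨ω', he, hT⟩
      show T (leaf R N ω)
      rw [← leaf_of_stopped he N]
      exact hT
  rw [← h1, ← h2, h3]
  exact (le_abs_self _).trans (le_tvDist R p _)

theorem tvDist_le_tv (R : ℝ) (p : unitInterval) :
    tvDist R p ≤ tv (leaves R (ball R).card) no nc p := by
  classical
  apply ciSup_le
  intro S
  set T := fun x : Finset Edg × Finset Edg =>
    ∃ ω', leaf R (ball R).card ω' = x ∧ stopped R ω' ∈ S with hTdef
  have h3 : {ω | stopped R ω ∈ S} = {ω | T (leaf R (ball R).card ω)} := by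
    ext ω
    constructor
    · intro h
      exact ⟨ω, rfl, h⟩
    · rintro ⟨ω', he, hS⟩
      show stopped R ω ∈ S
      rw [← stopped_of_leaf he]
      exact hS
  have h1 := event_leaf R (ball R).card T p
  have h2 := event_leaf R (ball R).card T half
  rw [half_val] at h2
  rw [h3, h1, h2]
  exact abs_le_tv (tree R _) p.2.1 p.2.2 T

/-! ### probabilities of exit times -/

/-- Number of examined edges of a leaf. -/
def sz (x : Finset Edg × Finset Edg) : ℕ := no x + nc x

theorem sz_leaf (R : ℝ) (N : ℕ) (ω : Conf) : sz (leaf R N ω) = (expl ω (tau R N ω)).card :=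
  leaf_card R N ω

theorem sz_le (R : ℝ) (N : ℕ) (ω : Conf) : sz (leaf R N ω) ≤ tau R N ω := by
  rw [sz_leaf]; exact card_expl_le _ _

/-- Upper bound for the mean number of examined edges. -/
theorem mean_upper (R : ℝ) (N : ℕ) :
    ∑ x ∈ leaves R N, wt no nc (1/2) x * ((no x + nc x : ℕ) : ℝ) ≤
      ∑ k ∈ range N, perc.real {ω | k < exit R ω} := by
  classical
  have h1 : ∀ x ∈ leaves R N, ((no x + nc x : ℕ) : ℝ) =
      ∑ k ∈ range N, (if k < sz x then (1:ℝ) else 0) := by
    intro x hx
    have h2 : sz x ≤ N := leaf_le x hx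
    rw [Finset.sum_ite, Finset.sum_const_zero, add_zero, Finset.sum_const, nsmul_eq_mul, mul_one]
    congr 1
    have : (range N).filter (fun k => k < sz x) = range (sz x) := by
      ext k
      simp only [Finset.mem_filter, Finset.mem_range]
      omega
    rw [this, Finset.card_range]
    rfl
  calc ∑ x ∈ leaves R N, wt no nc (1/2) x * ((no x + nc x : ℕ) : ℝ)
      = ∑ x ∈ leaves R N, ∑ k ∈ range N, (if k < sz x then wt no nc (1/2) x else 0) := by
        refine Finset.sum_congr rfl (fun x hx => ?_)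
        rw [h1 x hx, Finset.mul_sum]
        refine Finset.sum_congr rfl (fun k _ => ?_)
        split_ifs <;> simp
    _ = ∑ k ∈ range N, ∑ x ∈ leaves R N, (if k < sz x then wt no nc (1/2) x else 0) :=
        Finset.sum_comm
    _ = ∑ k ∈ range N, (law half).real {ω | k < sz (leaf R N ω)} := by
        refine Finset.sum_congr rfl (fun k _ => ?_)
        rw [event_leaf R N (fun x => k < sz x) half, half_val, Finset.sum_filter]
    _ ≤ ∑ k ∈ range N, perc.real {ω | k < exit R ω} := by
        refine Finset.sum_le_sum (fun k _ => ?_)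
        rw [law_half]
        apply measureReal_mono _ (measure_ne_top _ _)
        intro ω hω
        have h3 : k < sz (leaf R N ω) := hω
        have h4 := sz_le R N ω
        have h5 : tau R N ω ≤ exit R ω := min_le_left _ _
        show k < exit R ω
        omega

/-- Lower bound for the mean number of examined edges. -/
theorem mean_lower (R : ℝ) (N : ℕ) :
    ((N / 8 : ℕ) : ℝ) * perc.real {ω | N < exit R ω} ≤
      ∑ x ∈ leaves R N, wt no nc (1/2) x * ((no x + nc x : ℕ) : ℝ) := by
  classical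
  have h1 := event_leaf R N (fun x => N / 8 ≤ sz x) half
  rw [half_val, law_half] at h1
  have h2 : perc.real {ω | N < exit R ω} ≤ perc.real {ω | N / 8 ≤ sz (leaf R N ω)} := by
    apply measureReal_mono _ (measure_ne_top _ _)
    intro ω hω
    have h3 : N < exit R ω := hω
    have h4 : tau R N ω = N := min_eq_right h3.le
    show N / 8 ≤ sz (leaf R N ω)
    rw [sz_leaf, h4]
    have := card_expl ω N
    omega
  calc ((N / 8 : ℕ) : ℝ) * perc.real {ω | N < exit R ω}
      ≤ ((N / 8 : ℕ) : ℝ) * perc.real {ω | N / 8 ≤ sz (leaf R N ω)} :=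
        mul_le_mul_of_nonneg_left h2 (Nat.cast_nonneg _)
    _ = ∑ x ∈ (leaves R N).filter (fun x => N / 8 ≤ sz x),
          wt no nc (1/2) x * ((N / 8 : ℕ) : ℝ) := by
        rw [h1, Finset.mul_sum]
        exact Finset.sum_congr rfl (fun x _ => mul_comm _ _)
    _ ≤ ∑ x ∈ (leaves R N).filter (fun x => N / 8 ≤ sz x),
          wt no nc (1/2) x * ((no x + nc x : ℕ) : ℝ) := by
        refine Finset.sum_le_sum (fun x hx => ?_)
        apply mul_le_mul_of_nonneg_left _ (wt_nonneg _ _ (by norm_num) (by norm_num) x)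
        exact_mod_cast (Finset.mem_filter.mp hx).2
    _ ≤ _ := Finset.sum_le_sum_of_subset_of_nonneg (Finset.filter_subset _ _)
        (fun x _ _ => mul_nonneg (wt_nonneg _ _ (by norm_num) (by norm_num) x)
          (Nat.cast_nonneg _))

/-- Upper bound for `1 - tvDist`. -/
theorem compl_upper (R : ℝ) (N : ℕ) (p : unitInterval) :
    1 - tvDist R p ≤ Real.exp (-(((p : ℝ) - 1/2) ^ 2 * (N / 8 : ℕ) / 2)) +
      Real.sqrt (perc.real {ω | exit R ω ≤ N}) := by
  classical
  have h1 := tv_le_tvDist R N p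
  have h2 := one_sub_tv_upper (tree R N) (A := (leaves R N).filter (fun x => sz x < N / 8))
    (Finset.filter_subset _ _) (m := N / 8) (fun x hx hx' => by
      by_contra hcon
      push Not at hcon
      exact hx' (Finset.mem_filter.mpr ⟨hx, hcon⟩)) p.2.1 p.2.2
  have h3 := event_leaf R N (fun x => sz x < N / 8) half
  rw [half_val, law_half] at h3
  rw [← h3] at h2
  have h4 : perc.real {ω | sz (leaf R N ω) < N / 8} ≤ perc.real {ω | exit R ω ≤ N} := by
    apply measureReal_mono _ (measure_ne_top _ _)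
    intro ω hω
    have h5 : sz (leaf R N ω) < N / 8 := hω
    show exit R ω ≤ N
    by_contra hcon
    push Not at hcon
    have h6 : tau R N ω = N := min_eq_right hcon.le
    rw [sz_leaf, h6] at h5
    have := card_expl ω N
    omega
  have h7 := Real.sqrt_le_sqrt h4
  linarith

/-- Lower bound for `1 - tvDist`. -/
theorem compl_lower (R : ℝ) (N : ℕ) (p : unitInterval) (h0 : 1/4 ≤ (p : ℝ)) (h1 : (p : ℝ) ≤ 3/4) :
    (1/2) * (perc.real {ω | exit R ω ≤ N}) ^ 4 * Real.exp (-(8 * ((p : ℝ) - 1/2) ^ 2 * N)) ≤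
      1 - tvDist R p := by
  classical
  have h2 := tvDist_le_tv R p
  have h3 := one_sub_tv_lower (tree R (ball R).card)
    (A := (leaves R (ball R).card).filter (fun x => sz x ≤ N))
    (Finset.filter_subset _ _) (N := N) (fun x hx => (Finset.mem_filter.mp hx).2) h0 h1
  have h4 := event_leaf R (ball R).card (fun x => sz x ≤ N) half
  rw [half_val, law_half] at h4
  rw [← h4] at h3
  have h5 : perc.real {ω | exit R ω ≤ N} ≤ perc.real {ω | sz (leaf R (ball R).card ω) ≤ N} := by
    apply measureReal_mono _ (measure_ne_top _ _)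
    intro ω hω
    have h6 : exit R ω ≤ N := hω
    have h7 := sz_le R (ball R).card ω
    have h8 : tau R (ball R).card ω ≤ exit R ω := min_le_left _ _
    show sz (leaf R (ball R).card ω) ≤ N
    omega
  have h9 : (perc.real {ω | exit R ω ≤ N}) ^ 4 ≤
      (perc.real {ω | sz (leaf R (ball R).card ω) ≤ N}) ^ 4 :=
    pow_le_pow_left₀ measureReal_nonneg h5 4
  have h10 : (1/2) * (perc.real {ω | exit R ω ≤ N}) ^ 4 *
      Real.exp (-(8 * ((p : ℝ) - 1/2) ^ 2 * N)) ≤
      (1/2) * (perc.real {ω | sz (leaf R (ball R).card ω) ≤ N}) ^ 4 *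
      Real.exp (-(8 * ((p : ℝ) - 1/2) ^ 2 * N)) := by
    apply mul_le_mul_of_nonneg_right _ (Real.exp_pos _).le
    linarith
  linarith

/-- Upper bound for `tvDist`. -/
theorem dist_upper (R : ℝ) (p : unitInterval) (h0 : 1/4 ≤ (p : ℝ)) (h1 : (p : ℝ) ≤ 3/4) {M : ℝ}
    (hM : ∀ N, ∑ k ∈ range N, perc.real {ω | k < exit R ω} ≤ M) :
    tvDist R p ≤ 2 * |(p : ℝ) - 1/2| * Real.sqrt M := by
  have h2 := tvDist_le_tv R p
  have h3 := tv_upper (tree R (ball R).card) h0 h1
  have h4 := (mean_upper R (ball R).card).trans (hM _)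
  have hM0 : 0 ≤ M := by
    have := hM 0
    simpa using this
  refine h2.trans (sqle ?_ (by positivity))
  rw [mul_pow, mul_pow, sq_abs, Real.sq_sqrt hM0]
  have h5 : 0 ≤ 4 * ((p : ℝ) - 1/2) ^ 2 := by positivity
  nlinarith

/-- Lower bound for `tvDist`. -/
theorem dist_lower (R : ℝ) (N : ℕ) (hN : 8 ≤ N) (p : unitInterval) (hp : |(p : ℝ) - 1/2| ≤ 1/4)
    (hη : |(p : ℝ) - 1/2| * Real.sqrt N ≤ (1/32) ^ 2 / 234752)
    (hP : perc.real {ω | exit R ω ≤ N} ≤ 1/2) :
    (1/32) ^ 2 / 224 * (|(p : ℝ) - 1/2| * Real.sqrt N) ≤ tvDist R p := by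
  classical
  refine le_trans ?_ (tv_le_tvDist R N p)
  refine tv_lower (tree R N) (by omega) leaf_le (c1 := 1/32) (by norm_num) (by norm_num) ?_ hp hη
  refine le_trans ?_ (mean_lower R N)
  have h1 : perc.real {ω | N < exit R ω} = 1 - perc.real {ω | exit R ω ≤ N} := by
    have hm : MeasurableSet {ω | exit R ω ≤ N} := by
      have e1 : {ω | exit R ω ≤ N} = ⋃ x ∈ (leaves R (N + 1)).filter (fun x => ∃ ω',
          leaf R (N + 1) ω' = x ∧ exit R ω' ≤ N), {ω | leaf R (N + 1) ω = x} := by
        ext ω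
        simp only [Set.mem_iUnion, Finset.mem_filter, Set.mem_ofPred_eq]
        constructor
        · intro h
          exact ⟨leaf R (N + 1) ω, ⟨leaf_mem _ _ _, ω, rfl, h⟩, rfl⟩
        · rintro ⟨x, ⟨-, ω', h2, h3⟩, h4⟩
          rw [← h2, leaf_iff] at h4
          have h5 := path_congr h4
          have h6 := tau_congr h5
          unfold tau at h6
          omega
      rw [e1]
      exact Finset.measurableSet_biUnion _ (fun x _ => leaf_meas _ _ x)
    have e2 : {ω | N < exit R ω} = {ω | exit R ω ≤ N}ᶜ := by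
      ext ω; simp
    rw [e2, ← law_half, probReal_compl_eq_one_sub hm]
  have h2 : (1/2 : ℝ) ≤ perc.real {ω | N < exit R ω} := by linarith
  have h3 : (N : ℝ) / 16 ≤ ((N / 8 : ℕ) : ℝ) := by
    have h4 : N ≤ 16 * (N / 8) := by omega
    have h5 : (N : ℝ) ≤ 16 * ((N / 8 : ℕ) : ℝ) := by exact_mod_cast h4
    linarith
  have h6 : 0 ≤ (N : ℝ) := Nat.cast_nonneg _
  nlinarith

theorem exit_pos {R : ℝ} (hR : 1 ≤ R) (ω : Conf) : 1 ≤ exit R ω := by
  by_contra hcon
  push Not at hcon
  have h0 : exit R ω = 0 := by omega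
  have h1 := exit_spec R ω
  rw [h0] at h1
  have h2 : ‖gam ω 0‖ < 1 := by
    have e : gam ω 0 = ⟨((0 : ℤ) : ℝ) + 1/4, ((0 : ℤ) : ℝ) + 1/4⟩ := rfl
    rw [e]
    have := Complex.norm_le_abs_re_add_abs_im (⟨((0 : ℤ) : ℝ) + 1/4, ((0 : ℤ) : ℝ) + 1/4⟩ : ℂ)
    refine this.trans_lt ?_
    norm_num [abs_of_pos]
  linarith

/-- The first step gives a trivial lower bound. -/
theorem dist_first {R : ℝ} (hR : 1 ≤ R) (p : unitInterval) : |(p : ℝ) - 1/2| ≤ tvDist R p := by
  have h1 := le_tvDist R p {s | s 1 = ((0, 1), Q4.se)}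
  have h2 : {ω | stopped R ω ∈ {s : ℕ → St | s 1 = ((0, 1), Q4.se)}} =
      {ω : Conf | ∀ e ∈ ({(0, 0, false)} : Finset Edg), ω e = (fun _ => true : Conf) e} := by
    ext ω
    simp only [Set.mem_ofPred_eq, Finset.mem_singleton, forall_eq]
    have h3 : stopped R ω 1 = path ω 1 := by
      unfold stopped; rw [min_eq_left (exit_pos hR ω)]
    rw [h3, path_succ', path_zero]
    have hi : Inn (exm ((0, 0), Q4.ne)) := by unfold Inn exm; simp
    constructor
    · intro h
      by_contra hcon
      have h4 : exm ((0, 0), Q4.ne) ∉ opn ω := by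
        rw [mem_opn_inn hi]; exact hcon
      rw [step_closed h4] at h
      simp [rto] at h
    · intro h
      have h4 : exm ((0, 0), Q4.ne) ∈ opn ω := by
        rw [mem_opn_inn hi]; exact h
      rw [step_open h4]
      rfl
  rw [h2, cyl, cyl, half_val] at h1
  simpa using h1

end Pool.Agent.Zk60.NC
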