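import Pool.Agent.Zk60.NC.Dist
import Pool.Agent.R965.HT.Top

/-!
Sharp bounds for the total variation distance.
-/

set_option autoImplicit false

namespace Pool.Agent.Zk60.NC

open H974 H984P H984H MeasureTheory Finset

/-- Tails of the exit time from the tails of the displacement. -/
def ExitTails (a A c : ℝ) : Prop :=
  (∀ (n : ℕ) (R : ℝ), 1 ≤ n → 0 < R → perc.real {ω | exit R ω ≤ n} ≤
      A * Real.exp (-(a * (R ^ (7/3 : ℝ) / (n : ℝ) ^ (4/3 : ℝ))))) ∧
  (∀ (n : ℕ) (R : ℝ), 1 ≤ n → 0 < R → (n : ℝ) ^ (4/7 : ℝ) ≤ R → R ≤ c * n →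
      Real.exp (-(A * (R ^ (7/3 : ℝ) / (n : ℝ) ^ (4/3 : ℝ)))) ≤ perc.real {ω | exit R ω ≤ n}) ∧
  (∀ (n : ℕ) (R : ℝ), 1 ≤ n → 0 < R → perc.real {ω | n < exit R ω} ≤
      A * Real.exp (-(a * ((n : ℝ) / R ^ (7/4 : ℝ)) ^ 8)))

theorem exitTails : ∃ a A c : ℝ, 0 < a ∧ 0 < A ∧ 0 < c ∧ ExitTails a A c := by
  obtain ⟨a, A, c, ha, hA, hc, h1, h2, -⟩ := Pool.Agent.R965.HT.large
  obtain ⟨a', A', c', ha', hA', hc', h1', -⟩ := Pool.Agent.R965.HT.small
  have hmin : 0 < min a a' := lt_min ha ha'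
  have hmax : 0 < max A A' := lt_max_of_lt_left hA
  have hpow : ∀ (n : ℕ) (R : ℝ), 1 ≤ n → 0 < R →
      (R / (n : ℝ) ^ (4/7 : ℝ)) ^ (7/3 : ℝ) = R ^ (7/3 : ℝ) / (n : ℝ) ^ (4/3 : ℝ) := by
    intro n R hn hR
    have hn' : (0 : ℝ) < n := by exact_mod_cast hn
    rw [Real.div_rpow hR.le (by positivity), ← Real.rpow_mul hn'.le]
    norm_num
  have hset : ∀ (n : ℕ) (R : ℝ), 1 ≤ n → 0 < R → {ω | exit R ω ≤ n} =
      {ω | R / (n : ℝ) ^ (4/7 : ℝ) * (n : ℝ) ^ (4/7 : ℝ) ≤ reach n ω} := by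
    intro n R hn hR
    have hn' : (0 : ℝ) < n := by exact_mod_cast hn
    have hn'' : (0 : ℝ) < (n : ℝ) ^ (4/7 : ℝ) := by positivity
    ext ω
    simp only [Set.mem_ofPred_eq]
    rw [div_mul_cancel₀ _ hn''.ne']
    exact exit_le_iff
  refine ⟨min a a', max A A', c, hmin, hmax, hc, ?_, ?_, ?_⟩
  · intro n R hn hR
    have hn' : (0 : ℝ) < n := by exact_mod_cast hn
    rw [hset n R hn hR]
    refine (h1 n (R / (n : ℝ) ^ (4/7 : ℝ)) hn (by positivity)).trans ?_
    rw [hpow n R hn hR]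
    have hx : 0 ≤ R ^ (7/3 : ℝ) / (n : ℝ) ^ (4/3 : ℝ) := by positivity
    apply mul_le_mul (le_max_left _ _) _ (Real.exp_pos _).le hmax.le
    apply Real.exp_le_exp.mpr
    have := mul_le_mul_of_nonneg_right (min_le_left a a') hx
    linarith
  · intro n R hn hR h3 h4
    have hn' : (0 : ℝ) < n := by exact_mod_cast hn
    have hn'' : (0 : ℝ) < (n : ℝ) ^ (4/7 : ℝ) := by positivity
    rw [hset n R hn hR]
    have h5 := h2 n (R / (n : ℝ) ^ (4/7 : ℝ)) hn (by rw [le_div_iff₀ hn'', one_mul]; exact h3)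
      (by
        rw [div_le_iff₀ hn'', mul_assoc, ← Real.rpow_add hn']
        norm_num
        exact h4)
    refine le_trans ?_ h5
    rw [hpow n R hn hR]
    apply Real.exp_le_exp.mpr
    have hx : 0 ≤ R ^ (7/3 : ℝ) / (n : ℝ) ^ (4/3 : ℝ) := by positivity
    have := mul_le_mul_of_nonneg_right (le_max_left A A') hx
    linarith
  · intro n R hn hR
    have hn' : (0 : ℝ) < n := by exact_mod_cast hn
    have hn'' : (0 : ℝ) < (n : ℝ) ^ (4/7 : ℝ) := by positivity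
    have h3 := h1' n ((n : ℝ) ^ (4/7 : ℝ) / R) hn (by positivity)
    have e1 : (n : ℝ) ^ (4/7 : ℝ) / ((n : ℝ) ^ (4/7 : ℝ) / R) = R := by field_simp
    have e2 : ((n : ℝ) ^ (4/7 : ℝ) / R) ^ (14 : ℕ) = ((n : ℝ) / R ^ (7/4 : ℝ)) ^ 8 := by
      rw [div_pow, div_pow, ← Real.rpow_natCast, ← Real.rpow_natCast (R ^ (7/4 : ℝ)),
        ← Real.rpow_mul hn'.le, ← Real.rpow_mul hR.le, ← Real.rpow_natCast, ← Real.rpow_natCast]
      norm_num
    rw [e1, e2] at h3
    have h4 : perc.real {ω | n < exit R ω} ≤ perc.real {ω | reach n ω ≤ R} := by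
      apply measureReal_mono _ (measure_ne_top _ _)
      intro ω hω
      have h5 : n < exit R ω := hω
      have h6 : ¬ (R ≤ reach n ω) := fun h => absurd (exit_le_iff.mpr h) (not_le.mpr h5)
      exact (not_le.mp h6).le
    refine (h4.trans h3).trans ?_
    apply mul_le_mul (le_max_right _ _) _ (Real.exp_pos _).le hmax.le
    apply Real.exp_le_exp.mpr
    have hx : 0 ≤ ((n : ℝ) / R ^ (7/4 : ℝ)) ^ 8 := by positivity
    have := mul_le_mul_of_nonneg_right (min_le_right a a') hx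
    linarith

/-- Mean exit time. -/
theorem mean_exit {a A c : ℝ} (ha : 0 < a) (hA : 0 < A) (hE : ExitTails a A c) :
    ∃ C : ℝ, 0 < C ∧ ∀ R : ℝ, 1 ≤ R → ∀ N : ℕ,
      ∑ k ∈ range N, perc.real {ω | k < exit R ω} ≤ C * R ^ (7/4 : ℝ) := by
  obtain ⟨-, -, h3⟩ := hE
  set K := A * max 1 (1 / a) with hK
  have hK0 : 0 < K := by positivity
  refine ⟨2 + 2 * K, by positivity, fun R hR N => ?_⟩
  have hR0 : 0 < R := by linarith
  set Q := R ^ (7/4 : ℝ) with hQ
  have hQ1 : 1 ≤ Q := Real.one_le_rpow hR (by norm_num)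
  have hQ0 : 0 < Q := by linarith
  have hterm : ∀ k : ℕ, 1 ≤ k → perc.real {ω | k < exit R ω} ≤ K * Q ^ 2 * ((k : ℝ) ^ 2)⁻¹ := by
    intro k hk
    have hk0 : (0:ℝ) < k := by exact_mod_cast hk
    refine (h3 k R hk hR0).trans ?_
    rw [← hQ]
    set y := (k : ℝ) / Q with hy
    have hy0 : 0 < y := by positivity
    have e1 : K * Q ^ 2 * ((k : ℝ) ^ 2)⁻¹ = A * (max 1 (1 / a) * (1 / y ^ 2)) := by
      rw [hy, hK]; field_simp
    rw [e1]
    apply mul_le_mul_of_nonneg_left _ hA.le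
    by_cases hy1 : y ≤ 1
    · have h4 : Real.exp (-(a * y ^ 8)) ≤ 1 := Real.exp_le_one_iff.mpr (by
        have : 0 < a * y ^ 8 := by positivity
        linarith)
      have h5 : 1 ≤ 1 / y ^ 2 := by
        rw [le_div_iff₀ (by positivity), one_mul]
        exact pow_le_one₀ hy0.le hy1
      have h6 : (1:ℝ) ≤ max 1 (1 / a) := le_max_left _ _
      nlinarith
    · push Not at hy1
      have h4 : Real.exp (-(a * y ^ 8)) ≤ 1 / (a * y ^ 8) := by
        rw [Real.exp_neg, one_div]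
        apply inv_anti₀ (by positivity)
        have := Real.add_one_le_exp (a * y ^ 8)
        linarith
      refine h4.trans ?_
      have h5 : 1 / (a * y ^ 8) = (1 / a) * (1 / y ^ 8) := by field_simp
      rw [h5]
      apply mul_le_mul (le_max_right _ _) _ (by positivity) (by positivity)
      apply one_div_le_one_div_of_le (by positivity)
      exact pow_le_pow_right₀ hy1.le (by norm_num)
  have hone : ∀ k : ℕ, perc.real {ω | k < exit R ω} ≤ 1 := fun k => measureReal_le_one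
  set k0 := ⌊Q⌋₊ with hk0
  have hk0Q : (k0 : ℝ) ≤ Q := Nat.floor_le hQ0.le
  have hk0Q' : Q < k0 + 1 := Nat.lt_floor_add_one Q
  have hsub : range N ⊆ range (k0 + 1) ∪ Finset.Ioo k0 N := by
    intro k hk
    rw [Finset.mem_range] at hk
    simp only [Finset.mem_union, Finset.mem_range, Finset.mem_Ioo]
    omega
  calc ∑ k ∈ range N, perc.real {ω | k < exit R ω}
      ≤ ∑ k ∈ range (k0 + 1) ∪ Finset.Ioo k0 N, perc.real {ω | k < exit R ω} :=
        Finset.sum_le_sum_of_subset_of_nonneg hsub (fun _ _ _ => measureReal_nonneg)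
    _ ≤ ∑ k ∈ range (k0 + 1), perc.real {ω | k < exit R ω} +
        ∑ k ∈ Finset.Ioo k0 N, perc.real {ω | k < exit R ω} := by
        have h9 := Finset.sum_union_inter (s₁ := range (k0 + 1)) (s₂ := Finset.Ioo k0 N)
          (f := fun k => perc.real {ω | k < exit R ω})
        have h10 : 0 ≤ ∑ k ∈ range (k0 + 1) ∩ Finset.Ioo k0 N, perc.real {ω | k < exit R ω} :=
          Finset.sum_nonneg (fun _ _ => measureReal_nonneg)
        linarith
    _ ≤ ∑ _k ∈ range (k0 + 1), (1:ℝ) + ∑ k ∈ Finset.Ioo k0 N, K * Q ^ 2 * ((k : ℝ) ^ 2)⁻¹ := by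
        refine add_le_add (Finset.sum_le_sum (fun k _ => hone k))
          (Finset.sum_le_sum (fun k hk => hterm k ?_))
        rw [Finset.mem_Ioo] at hk
        omega
    _ ≤ (Q + 1) + K * Q ^ 2 * (2 / (k0 + 1)) := by
        rw [← Finset.mul_sum]
        have h6 := sum_Ioo_inv_sq_le (α := ℝ) k0 N
        have h7 := mul_le_mul_of_nonneg_left h6 (by positivity : 0 ≤ K * Q ^ 2)
        rw [Finset.sum_const, Finset.card_range, nsmul_eq_mul, mul_one]
        push_cast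
        linarith
    _ ≤ (Q + 1) + K * Q ^ 2 * (2 / Q) := by
        have h8 : (2:ℝ) / (k0 + 1) ≤ 2 / Q := div_le_div_of_nonneg_left (by norm_num) hQ0 hk0Q'.le
        have := mul_le_mul_of_nonneg_left h8 (by positivity : 0 ≤ K * Q ^ 2)
        linarith
    _ = Q + 1 + 2 * K * Q := by field_simp
    _ ≤ (2 + 2 * K) * Q := by nlinarith

/-- Upper bound for the distance. -/
theorem upper {a A c : ℝ} (ha : 0 < a) (hA : 0 < A) (hE : ExitTails a A c) :
    ∃ C : ℝ, 0 < C ∧ ∀ R : ℝ, 1 ≤ R → ∀ p : unitInterval, |(p : ℝ) - 1/2| ≤ 1/4 →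
      tvDist R p ≤ C * (|(p : ℝ) - 1/2| * R ^ (7/8 : ℝ)) := by
  obtain ⟨C, hC, h⟩ := mean_exit ha hA hE
  refine ⟨2 * Real.sqrt C, by positivity, fun R hR p hp => ?_⟩
  obtain ⟨hp1, hp2⟩ := abs_le.mp hp
  have h1 := dist_upper R p (by linarith) (by linarith) (h R hR)
  refine h1.trans (le_of_eq ?_)
  rw [Real.sqrt_mul hC.le, Real.sqrt_eq_rpow (R ^ (7/4 : ℝ)), ← Real.rpow_mul (by linarith)]
  have e : (7/4 : ℝ) * (1/2) = 7/8 := by norm_num
  rw [e]
  ring

theorem aux_third {x y : ℝ} (h : x ^ 2 < 8 * y ^ 2) (hy : 0 ≤ y) : x / 3 ≤ y := by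
  apply sqle _ hy
  have h1 := sq_nonneg y
  have h2 : (x / 3) ^ 2 = x ^ 2 / 9 := by ring
  rw [h2]
  linarith

/-- Lower bound for the distance. -/
theorem lower {a A c : ℝ} (ha : 0 < a) (hA : 0 < A) (hE : ExitTails a A c) :
    ∃ c' : ℝ, 0 < c' ∧ ∀ R : ℝ, 1 ≤ R → ∀ p : unitInterval, |(p : ℝ) - 1/2| ≤ 1/4 →
      c' * min 1 (|(p : ℝ) - 1/2| * R ^ (7/8 : ℝ)) ≤ tvDist R p := by
  obtain ⟨h1, -, -⟩ := hE
  -- the constant `c0`
  set c0 : ℝ := (max 1 (2 * A / a)) ^ (-(3/4) : ℝ) with hc0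
  have hz1 : (1:ℝ) ≤ max 1 (2 * A / a) := le_max_left _ _
  have hz0 : (0:ℝ) < max 1 (2 * A / a) := by linarith
  have hc00 : 0 < c0 := by positivity
  have hc01 : c0 ≤ 1 := Real.rpow_le_one_of_one_le_of_nonpos hz1 (by norm_num)
  set η0 : ℝ := (1/32) ^ 2 / 234752 with hη0
  have hη00 : 0 < η0 := by rw [hη0]; norm_num
  have hη01 : η0 ≤ 1 := by rw [hη0]; norm_num
  set k1 : ℝ := (1/32) ^ 2 / 224 with hk1
  have hk10 : 0 < k1 := by rw [hk1]; norm_num
  refine ⟨min (Real.sqrt (c0 / 8)) (min (η0 / 3) (k1 * min (Real.sqrt (c0 / 2)) (η0 / 2))),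
    by positivity, fun R hR p hp => ?_⟩
  have hR0 : 0 < R := by linarith
  set ε := |(p : ℝ) - 1/2| with hε
  have hε0 : 0 ≤ ε := abs_nonneg _
  set Q := R ^ (7/4 : ℝ) with hQ
  have hQ1 : 1 ≤ Q := Real.one_le_rpow hR (by norm_num)
  have hQ0 : 0 < Q := by linarith
  have hsQ : Real.sqrt Q = R ^ (7/8 : ℝ) := by
    rw [Real.sqrt_eq_rpow, hQ, ← Real.rpow_mul hR0.le]; norm_num
  rw [← hsQ]
  have hfirst := dist_first hR p
  rw [← hε] at hfirst
  have hm0 : 0 ≤ min 1 (ε * Real.sqrt Q) := le_min zero_le_one (by positivity)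
  rcases eq_or_lt_of_le hε0 with he | hεpos
  · rw [← he, zero_mul, min_eq_right (by norm_num : (0:ℝ) ≤ 1), mul_zero]
    exact hε0.trans hfirst
  by_cases hA1 : c0 * Q < 8
  · -- small R
    have h2 : Real.sqrt (c0 / 8) * Real.sqrt Q ≤ 1 := by
      rw [← Real.sqrt_mul (by positivity)]
      rw [Real.sqrt_le_one]
      linarith
    calc _ ≤ Real.sqrt (c0 / 8) * (ε * Real.sqrt Q) :=
          mul_le_mul (min_le_left _ _) (min_le_right _ _) hm0 (Real.sqrt_nonneg _)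
      _ = ε * (Real.sqrt (c0 / 8) * Real.sqrt Q) := by ring
      _ ≤ ε * 1 := mul_le_mul_of_nonneg_left h2 hε0
      _ ≤ _ := by rw [mul_one]; exact hfirst
  push Not at hA1
  by_cases hB1 : η0 ^ 2 / ε ^ 2 < 8
  · -- large ε
    have h2 : η0 / 3 ≤ ε := by
      rw [div_lt_iff₀ (by positivity)] at hB1
      exact aux_third hB1 hε0
    calc _ ≤ (η0 / 3) * 1 :=
          mul_le_mul ((min_le_right _ _).trans (min_le_left _ _)) (min_le_left _ _) hm0
            (by positivity)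
      _ ≤ ε := by linarith
      _ ≤ _ := hfirst
  push Not at hB1
  -- main case
  set X := min (c0 * Q) (η0 ^ 2 / ε ^ 2) with hX
  have hX8 : 8 ≤ X := le_min hA1 hB1
  set N := ⌊X⌋₊ with hN
  have hN8 : 8 ≤ N := Nat.le_floor (by exact_mod_cast hX8)
  have hNX : (N : ℝ) ≤ X := Nat.floor_le (by linarith)
  have hNX' : X / 2 ≤ N := by
    have := Nat.lt_floor_add_one X
    rw [← hN] at this
    linarith
  have hN0 : (0:ℝ) < N := by
    have : (8:ℝ) ≤ N := by exact_mod_cast hN8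
    linarith
  have hη : ε * Real.sqrt N ≤ η0 := by
    apply sqle _ hη00.le
    rw [mul_pow, Real.sq_sqrt hN0.le]
    have h3 : (N : ℝ) ≤ η0 ^ 2 / ε ^ 2 := hNX.trans (min_le_right _ _)
    rw [le_div_iff₀ (by positivity)] at h3
    linarith
  have hP : perc.real {ω | exit R ω ≤ N} ≤ 1/2 := by
    refine (h1 N R (by omega) hR0).trans ?_
    have h3 : (N : ℝ) ≤ c0 * Q := hNX.trans (min_le_left _ _)
    have h4 : max 1 (2 * A / a) ≤ R ^ (7/3 : ℝ) / (N : ℝ) ^ (4/3 : ℝ) := by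
      rw [le_div_iff₀ (by positivity)]
      have h5 : (N : ℝ) ^ (4/3 : ℝ) ≤ (c0 * Q) ^ (4/3 : ℝ) :=
        Real.rpow_le_rpow hN0.le h3 (by norm_num)
      have h6 : (c0 * Q) ^ (4/3 : ℝ) = (max 1 (2 * A / a))⁻¹ * R ^ (7/3 : ℝ) := by
        rw [Real.mul_rpow hc00.le hQ0.le, hc0, hQ, ← Real.rpow_mul hz0.le, ← Real.rpow_mul hR0.le]
        have e1 : (-(3/4) : ℝ) * (4/3) = -1 := by norm_num
        have e2 : (7/4 : ℝ) * (4/3) = 7/3 := by norm_num
        rw [e1, e2, Real.rpow_neg_one]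
      calc max 1 (2 * A / a) * (N : ℝ) ^ (4/3 : ℝ)
          ≤ max 1 (2 * A / a) * ((max 1 (2 * A / a))⁻¹ * R ^ (7/3 : ℝ)) := by
            rw [← h6]; exact mul_le_mul_of_nonneg_left h5 hz0.le
        _ = R ^ (7/3 : ℝ) := by field_simp
    have h7 : 2 * A ≤ a * (R ^ (7/3 : ℝ) / (N : ℝ) ^ (4/3 : ℝ)) := by
      have h8 : 2 * A / a ≤ R ^ (7/3 : ℝ) / (N : ℝ) ^ (4/3 : ℝ) := (le_max_right _ _).trans h4
      rw [div_le_iff₀ ha] at h8
      linarith
    set w := a * (R ^ (7/3 : ℝ) / (N : ℝ) ^ (4/3 : ℝ)) with hw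
    have hw0 : 0 < w := by linarith
    have h9 : Real.exp (-w) ≤ 1 / w := by
      rw [Real.exp_neg, one_div]
      apply inv_anti₀ hw0
      have := Real.add_one_le_exp w
      linarith
    calc A * Real.exp (-w) ≤ A * (1 / w) := mul_le_mul_of_nonneg_left h9 hA.le
      _ = A / w := by ring
      _ ≤ 1 / 2 := by rw [div_le_div_iff₀ hw0 (by norm_num)]; linarith
  have hmain := dist_lower R N hN8 p hp hη hP
  rw [← hε, ← hk1] at hmain
  refine le_trans ?_ hmain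
  -- `ε √N ≥ min (√(c0/2)) (η0/2) * min 1 (ε √Q)`
  have hkey : min (Real.sqrt (c0 / 2)) (η0 / 2) * min 1 (ε * Real.sqrt Q) ≤ ε * Real.sqrt N := by
    have h10 : Real.sqrt (X / 2) ≤ Real.sqrt N := Real.sqrt_le_sqrt hNX'
    refine le_trans ?_ (mul_le_mul_of_nonneg_left h10 hε0)
    rcases min_choice (c0 * Q) (η0 ^ 2 / ε ^ 2) with hc | hc
    · rw [hX, hc]
      have e3 : c0 * Q / 2 = (c0 / 2) * Q := by ring
      rw [e3, Real.sqrt_mul (by positivity)]
      calc _ ≤ Real.sqrt (c0 / 2) * (ε * Real.sqrt Q) :=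
            mul_le_mul (min_le_left _ _) (min_le_right _ _) hm0 (Real.sqrt_nonneg _)
        _ = _ := by ring
    · rw [hX, hc]
      have e4 : η0 / 2 ≤ ε * Real.sqrt (η0 ^ 2 / ε ^ 2 / 2) := by
        apply sqle _ (by positivity)
        rw [mul_pow, Real.sq_sqrt (by positivity)]
        have : ε ^ 2 * (η0 ^ 2 / ε ^ 2 / 2) = η0 ^ 2 / 2 := by field_simp
        rw [this]
        nlinarith
      refine le_trans ?_ e4
      calc _ ≤ (η0 / 2) * 1 := mul_le_mul (min_le_right _ _) (min_le_left _ _) hm0 (by positivity)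
        _ = _ := mul_one _
  calc _ ≤ (k1 * min (Real.sqrt (c0 / 2)) (η0 / 2)) * min 1 (ε * Real.sqrt Q) :=
        mul_le_mul_of_nonneg_right ((min_le_right _ _).trans (min_le_right _ _)) hm0
    _ = k1 * (min (Real.sqrt (c0 / 2)) (η0 / 2) * min 1 (ε * Real.sqrt Q)) := by ring
    _ ≤ _ := mul_le_mul_of_nonneg_left hkey hk10.le

theorem tvDist_le_one (R : ℝ) (p : unitInterval) : tvDist R p ≤ 1 :=
  (tvDist_le_tv R p).trans (tv_le_one (tree R _) p.2.1 p.2.2)

theorem tvDist_nonneg (R : ℝ) (p : unitInterval) : 0 ≤ tvDist R p :=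
  (tv_nonneg _ _ _ _).trans (tv_le_tvDist R 0 p)

/-- `u = ε ^ (8/7) R` and `N = ε ^ (-6/7) R`. -/
theorem pow_facts {ε R : ℝ} (hε : 0 < ε) (hR : 0 < R) :
    ε ^ 2 * (R * ε ^ (-(6/7) : ℝ)) = ε ^ (8/7 : ℝ) * R ∧
    (R * ε ^ (-(6/7) : ℝ)) ^ (4/3 : ℝ) * (ε ^ (8/7 : ℝ) * R) = R ^ (7/3 : ℝ) := by
  constructor
  · have : ε ^ (8/7 : ℝ) = ε ^ 2 * ε ^ (-(6/7) : ℝ) := by
      rw [← Real.rpow_natCast, ← Real.rpow_add hε]; norm_num
    rw [this]; ring
  · rw [Real.mul_rpow hR.le (by positivity), ← Real.rpow_mul hε.le]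
    have e1 : (-(6/7) : ℝ) * (4/3) = -(8/7) := by norm_num
    rw [e1]
    have e2 : R ^ (7/3 : ℝ) = R ^ (4/3 : ℝ) * R := by
      have : (7/3 : ℝ) = 4/3 + 1 := by norm_num
      rw [this, Real.rpow_add hR, Real.rpow_one]
    have e3 : ε ^ (-(8/7) : ℝ) * ε ^ (8/7 : ℝ) = 1 := by
      rw [← Real.rpow_add hε]; norm_num
    rw [e2]
    calc R ^ (4/3 : ℝ) * ε ^ (-(8/7) : ℝ) * (ε ^ (8/7 : ℝ) * R)
        = R ^ (4/3 : ℝ) * R * (ε ^ (-(8/7) : ℝ) * ε ^ (8/7 : ℝ)) := by ring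
      _ = _ := by rw [e3, mul_one]

/-- Upper bound for the complement. -/
theorem compl_up {a A c : ℝ} (ha : 0 < a) (hA : 0 < A) (hE : ExitTails a A c) :
    ∃ c' C : ℝ, 0 < c' ∧ 0 < C ∧ ∀ R : ℝ, 1 ≤ R → ∀ p : unitInterval, |(p : ℝ) - 1/2| ≤ 1/4 →
      1 - tvDist R p ≤ C * Real.exp (-(c' * (|(p : ℝ) - 1/2| ^ (8/7 : ℝ) * R))) := by
  obtain ⟨h1, -, -⟩ := hE
  refine ⟨min (1/16) (a / 2), 3 + Real.sqrt A, by positivity, by positivity,
    fun R hR p hp => ?_⟩
  have hR0 : 0 < R := by linarith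
  set ε := |(p : ℝ) - 1/2| with hε
  have hε0 : 0 ≤ ε := abs_nonneg _
  have hsA : 0 ≤ Real.sqrt A := Real.sqrt_nonneg _
  rcases eq_or_lt_of_le hε0 with he | hεpos
  · rw [← he, Real.zero_rpow (by norm_num), zero_mul, mul_zero, neg_zero, Real.exp_zero, mul_one]
    have := tvDist_nonneg R p
    linarith
  set u := ε ^ (8/7 : ℝ) * R with hu
  have hu0 : 0 < u := by positivity
  obtain ⟨f1, f2⟩ := pow_facts hεpos hR0
  rw [← hu] at f1 f2
  set X := R * ε ^ (-(6/7) : ℝ) with hX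
  have hX1 : 1 ≤ X := by
    have : 1 ≤ ε ^ (-(6/7) : ℝ) :=
      Real.one_le_rpow_of_pos_of_le_one_of_nonpos hεpos (by linarith) (by norm_num)
    nlinarith
  set N := ⌊X⌋₊ with hN
  have hN1 : 1 ≤ N := Nat.le_floor (by exact_mod_cast hX1)
  have hNX : (N : ℝ) ≤ X := Nat.floor_le (by linarith)
  have hN0 : (0:ℝ) < N := by exact_mod_cast hN1
  have h2 := compl_upper R N p
  have h3 : Real.exp (-(((p : ℝ) - 1/2) ^ 2 * (N / 8 : ℕ) / 2)) ≤ 3 * Real.exp (-(1/16 * u)) := by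
    have h4 : X < N + 1 := Nat.lt_floor_add_one X
    have h5 : (N : ℝ) ≤ 8 * ((N / 8 : ℕ) : ℝ) + 7 := by
      have : N ≤ 8 * (N / 8) + 7 := by omega
      exact_mod_cast this
    have h6 : ((p : ℝ) - 1/2) ^ 2 = ε ^ 2 := by rw [hε, sq_abs]
    rw [h6]
    have hε2 : ε ^ 2 ≤ 1/16 := by nlinarith
    have h7 : u - 1/2 ≤ ε ^ 2 * (8 * ((N / 8 : ℕ) : ℝ)) := by
      rw [← f1]
      have h8 : X - 8 ≤ 8 * ((N / 8 : ℕ) : ℝ) := by linarith
      have h9 := mul_le_mul_of_nonneg_left h8 (sq_nonneg ε)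
      nlinarith
    have h10 : -(ε ^ 2 * (N / 8 : ℕ) / 2) ≤ 1 + -(1/16 * u) := by linarith
    calc Real.exp (-(ε ^ 2 * (N / 8 : ℕ) / 2)) ≤ Real.exp (1 + -(1/16 * u)) :=
          Real.exp_le_exp.mpr h10
      _ = Real.exp 1 * Real.exp (-(1/16 * u)) := Real.exp_add _ _
      _ ≤ 3 * Real.exp (-(1/16 * u)) := by
          apply mul_le_mul_of_nonneg_right _ (Real.exp_pos _).le
          have := Real.exp_one_lt_d9
          linarith
  have h11 : Real.sqrt (perc.real {ω | exit R ω ≤ N}) ≤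
      Real.sqrt A * Real.exp (-(a / 2 * u)) := by
    have h12 : u ≤ R ^ (7/3 : ℝ) / (N : ℝ) ^ (4/3 : ℝ) := by
      rw [le_div_iff₀ (by positivity), ← f2, mul_comm]
      apply mul_le_mul_of_nonneg_right _ hu0.le
      exact Real.rpow_le_rpow hN0.le hNX (by norm_num)
    have h13 := h1 N R hN1 hR0
    have h14 : perc.real {ω | exit R ω ≤ N} ≤ A * Real.exp (-(a / 2 * u)) ^ 2 := by
      refine h13.trans ?_
      apply mul_le_mul_of_nonneg_left _ hA.le
      rw [← Real.exp_nat_mul]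
      apply Real.exp_le_exp.mpr
      have := mul_le_mul_of_nonneg_left h12 ha.le
      push_cast
      linarith
    calc Real.sqrt (perc.real {ω | exit R ω ≤ N}) ≤ Real.sqrt (A * Real.exp (-(a / 2 * u)) ^ 2) :=
          Real.sqrt_le_sqrt h14
      _ = _ := by rw [Real.sqrt_mul hA.le, Real.sqrt_sq (Real.exp_pos _).le]
  have h15 : Real.exp (-(1/16 * u)) ≤ Real.exp (-(min (1/16) (a / 2) * u)) := by
    apply Real.exp_le_exp.mpr
    have := mul_le_mul_of_nonneg_right (min_le_left (1/16 : ℝ) (a / 2)) hu0.le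
    linarith
  have h16 : Real.exp (-(a / 2 * u)) ≤ Real.exp (-(min (1/16) (a / 2) * u)) := by
    apply Real.exp_le_exp.mpr
    have := mul_le_mul_of_nonneg_right (min_le_right (1/16 : ℝ) (a / 2)) hu0.le
    linarith
  have h17 := mul_le_mul_of_nonneg_left h16 hsA
  linarith

/-- Lower bound for the complement. -/
theorem compl_low {a A c : ℝ} (ha : 0 < a) (hA : 0 < A) (hc : 0 < c) (hE : ExitTails a A c) :
    ∃ c' C : ℝ, 0 < c' ∧ 0 < C ∧ ∀ R : ℝ, 1 ≤ R → ∀ p : unitInterval, |(p : ℝ) - 1/2| ≤ 1/4 →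
      c' * Real.exp (-(C * (|(p : ℝ) - 1/2| ^ (8/7 : ℝ) * R))) ≤ 1 - tvDist R p := by
  obtain ⟨-, h2, h3⟩ := hE
  set K : ℝ := max 1 (1 / c) with hK
  have hK1 : 1 ≤ K := le_max_left _ _
  have hKc : 1 ≤ c * K := by
    have : 1 / c ≤ K := le_max_right _ _
    rw [div_le_iff₀ hc] at this
    linarith
  set K0 : ℝ := max 1 (2 * A / a) with hK0
  have hK01 : 1 ≤ K0 := le_max_left _ _
  have hK0a : 2 * A ≤ a * K0 := by
    have : 2 * A / a ≤ K0 := le_max_right _ _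
    rw [div_le_iff₀ ha] at this
    linarith
  set W : ℝ := (2 * K) ^ (7/3 : ℝ) with hW
  have hW0 : 0 < W := by positivity
  set c1 : ℝ := (1/32) * Real.exp (-(16 * K0 * W)) with hc1
  have hc10 : 0 < c1 := by positivity
  have hc11 : c1 ≤ 1 := by
    have : Real.exp (-(16 * K0 * W)) ≤ 1 := Real.exp_le_one_iff.mpr (by
      have : 0 < 16 * K0 * W := by positivity
      linarith)
    rw [hc1]; linarith
  refine ⟨min c1 (1/2), 4 * A + 16 * K, by positivity, by positivity, fun R hR p hp => ?_⟩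
  have hR0 : 0 < R := by linarith
  obtain ⟨hp1, hp2⟩ := abs_le.mp hp
  set ε := |(p : ℝ) - 1/2| with hε
  have hε0 : 0 ≤ ε := abs_nonneg _
  have h6 : ((p : ℝ) - 1/2) ^ 2 = ε ^ 2 := by rw [hε, sq_abs]
  have hmc0 : 0 < min c1 (1/2) := by positivity
  rcases eq_or_lt_of_le hε0 with he | hεpos
  · -- ε = 0
    have hp3 : (p : ℝ) = 1/2 := by
      have : |(p : ℝ) - 1/2| = 0 := by rw [← hε]; exact he.symm
      rw [abs_eq_zero] at this
      linarith
    have hph : p = half := Subtype.ext hp3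
    have ht : tvDist R p = 0 := by
      rw [hph]
      unfold tvDist
      simp
    rw [ht, ← he, Real.zero_rpow (by norm_num), zero_mul, mul_zero, neg_zero, Real.exp_zero,
      mul_one, sub_zero]
    exact (min_le_left _ _).trans hc11
  set u := ε ^ (8/7 : ℝ) * R with hu
  have hu0 : 0 < u := by positivity
  obtain ⟨f1, f2⟩ := pow_facts hεpos hR0
  rw [← hu] at f1 f2
  set X0 := R * ε ^ (-(6/7) : ℝ) with hX0
  have hX01 : 1 ≤ X0 := by
    have : 1 ≤ ε ^ (-(6/7) : ℝ) :=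
      Real.one_le_rpow_of_pos_of_le_one_of_nonpos hεpos (by linarith) (by norm_num)
    nlinarith
  have hRX : R ≤ X0 := by
    have : 1 ≤ ε ^ (-(6/7) : ℝ) :=
      Real.one_le_rpow_of_pos_of_le_one_of_nonpos hεpos (by linarith) (by norm_num)
    nlinarith
  set Q := R ^ (7/4 : ℝ) with hQ
  have hQ1 : 1 ≤ Q := Real.one_le_rpow hR (by norm_num)
  have hQ0 : 0 < Q := by linarith
  have hKX : 1 ≤ K * X0 := by nlinarith
  set N := ⌈K * X0⌉₊ with hN
  have hNX : K * X0 ≤ N := Nat.le_ceil _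
  have hNX' : (N : ℝ) ≤ 2 * (K * X0) := by
    have := Nat.ceil_lt_add_one (by linarith : 0 ≤ K * X0)
    rw [← hN] at this
    linarith
  have hN1' : (1:ℝ) ≤ N := hKX.trans hNX
  have hN1 : 1 ≤ N := by exact_mod_cast hN1'
  have hN0 : (0:ℝ) < N := by linarith
  by_cases hNQ : (N : ℝ) ≤ Q
  · -- main case
    have h7 : (N : ℝ) ^ (4/7 : ℝ) ≤ R := by
      calc (N : ℝ) ^ (4/7 : ℝ) ≤ Q ^ (4/7 : ℝ) := Real.rpow_le_rpow hN0.le hNQ (by norm_num)
        _ = R := by rw [hQ, ← Real.rpow_mul hR0.le]; norm_num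
    have h8 : R ≤ c * N := by
      calc R ≤ X0 := hRX
        _ ≤ (c * K) * X0 := le_mul_of_one_le_left (by linarith) hKc
        _ = c * (K * X0) := by ring
        _ ≤ c * N := mul_le_mul_of_nonneg_left hNX hc.le
    have h9 := h2 N R hN1 hR0 h7 h8
    have h10 : R ^ (7/3 : ℝ) / (N : ℝ) ^ (4/3 : ℝ) ≤ u := by
      rw [div_le_iff₀ (by positivity), ← f2, mul_comm u]
      apply mul_le_mul_of_nonneg_right _ hu0.le
      apply Real.rpow_le_rpow (by linarith) _ (by norm_num)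
      nlinarith
    have h11 : Real.exp (-(A * u)) ≤ perc.real {ω | exit R ω ≤ N} := by
      refine le_trans (Real.exp_le_exp.mpr ?_) h9
      have := mul_le_mul_of_nonneg_left h10 hA.le
      linarith
    have h12 := compl_lower R N p (by linarith) (by linarith)
    rw [h6] at h12
    refine le_trans ?_ h12
    have h13 : Real.exp (-(A * u)) ^ 4 ≤ (perc.real {ω | exit R ω ≤ N}) ^ 4 :=
      pow_le_pow_left₀ (Real.exp_pos _).le h11 4
    have h14 : ε ^ 2 * N ≤ 2 * K * u := by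
      rw [← f1]
      have := mul_le_mul_of_nonneg_left hNX' (sq_nonneg ε)
      nlinarith
    have h15 : Real.exp (-(16 * K * u)) ≤ Real.exp (-(8 * ε ^ 2 * N)) := by
      apply Real.exp_le_exp.mpr
      linarith
    have e1 : Real.exp (-((4 * A + 16 * K) * u)) =
        Real.exp (-(A * u)) ^ 4 * Real.exp (-(16 * K * u)) := by
      rw [← Real.exp_nat_mul, ← Real.exp_add]; congr 1; push_cast; ring
    rw [e1]
    calc min c1 (1/2) * (Real.exp (-(A * u)) ^ 4 * Real.exp (-(16 * K * u)))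
        ≤ (1/2) * (Real.exp (-(A * u)) ^ 4 * Real.exp (-(16 * K * u))) :=
          mul_le_mul_of_nonneg_right (min_le_right _ _) (by positivity)
      _ ≤ (1/2) * ((perc.real {ω | exit R ω ≤ N}) ^ 4 * Real.exp (-(8 * ε ^ 2 * N))) := by
          apply mul_le_mul_of_nonneg_left _ (by norm_num)
          exact mul_le_mul h13 h15 (Real.exp_pos _).le (by positivity)
      _ = _ := by ring
  · -- `ε R^(7/8)` bounded
    push Not at hNQ
    have h7 : ε ^ 2 * Q ≤ W := by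
      have h8 : Q < 2 * K * X0 := by linarith
      -- multiply by ε^(6/7) and raise to 7/3
      have e2 : Q = R * R ^ (3/4 : ℝ) := by
        rw [hQ]
        have : (7/4 : ℝ) = 1 + 3/4 := by norm_num
        rw [this, Real.rpow_add hR0, Real.rpow_one]
      have h9 : R ^ (3/4 : ℝ) < 2 * K * ε ^ (-(6/7) : ℝ) := by
        rw [e2, hX0] at h8
        have h8' : R * R ^ (3/4 : ℝ) < R * (2 * K * ε ^ (-(6/7) : ℝ)) := by linarith
        exact lt_of_mul_lt_mul_left h8' hR0.le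
      have h10 : R ^ (3/4 : ℝ) * ε ^ (6/7 : ℝ) ≤ 2 * K := by
        have h11 := mul_le_mul_of_nonneg_right h9.le (by positivity : 0 ≤ ε ^ (6/7 : ℝ))
        have e3 : 2 * K * ε ^ (-(6/7) : ℝ) * ε ^ (6/7 : ℝ) = 2 * K := by
          rw [mul_assoc, ← Real.rpow_add hεpos]; norm_num
        rw [e3] at h11
        exact h11
      have h12 : (R ^ (3/4 : ℝ) * ε ^ (6/7 : ℝ)) ^ (7/3 : ℝ) ≤ W :=
        Real.rpow_le_rpow (by positivity) h10 (by norm_num)
      rw [Real.mul_rpow (by positivity) (by positivity), ← Real.rpow_mul hR0.le,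
        ← Real.rpow_mul hεpos.le] at h12
      have e4 : (3/4 : ℝ) * (7/3) = 7/4 := by norm_num
      have e5 : (6/7 : ℝ) * (7/3) = 2 := by norm_num
      rw [e4, e5, ← hQ] at h12
      have e6 : ε ^ (2 : ℝ) = ε ^ 2 := by
        rw [← Real.rpow_natCast]; norm_num
      rw [e6] at h12
      linarith
    set N0 := ⌈K0 * Q⌉₊ with hN0def
    have hKQ : 1 ≤ K0 * Q := by nlinarith
    have hN01 : K0 * Q ≤ N0 := Nat.le_ceil _
    have hN02 : (N0 : ℝ) ≤ 2 * (K0 * Q) := by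
      have := Nat.ceil_lt_add_one (by linarith : 0 ≤ K0 * Q)
      rw [← hN0def] at this
      linarith
    have hN03 : 1 ≤ N0 := by
      have : (1:ℝ) ≤ N0 := hKQ.trans hN01
      exact_mod_cast this
    have h8 := h3 N0 R hN03 hR0
    rw [← hQ] at h8
    have h9 : K0 ≤ ((N0 : ℝ) / Q) ^ 8 := by
      have h10 : K0 ≤ (N0 : ℝ) / Q := by rw [le_div_iff₀ hQ0]; exact hN01
      calc K0 ≤ K0 ^ 8 := le_self_pow₀ hK01 (by norm_num)
        _ ≤ ((N0 : ℝ) / Q) ^ 8 := pow_le_pow_left₀ (by linarith) h10 8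
    have h10 : perc.real {ω | N0 < exit R ω} ≤ 1/2 := by
      refine h8.trans ?_
      set w := a * ((N0 : ℝ) / Q) ^ 8 with hw
      have hw1 : 2 * A ≤ w := hK0a.trans (mul_le_mul_of_nonneg_left h9 ha.le)
      have hw0 : 0 < w := by linarith
      have h11 : Real.exp (-w) ≤ 1 / w := by
        rw [Real.exp_neg, one_div]
        apply inv_anti₀ hw0
        have := Real.add_one_le_exp w
        linarith
      calc A * Real.exp (-w) ≤ A * (1 / w) := mul_le_mul_of_nonneg_left h11 hA.le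
        _ = A / w := by ring
        _ ≤ 1 / 2 := by rw [div_le_div_iff₀ hw0 (by norm_num)]; linarith
    have h11 : 1/2 ≤ perc.real {ω | exit R ω ≤ N0} := by
      have h12 : (1:ℝ) ≤ perc.real {ω | exit R ω ≤ N0} + perc.real {ω | N0 < exit R ω} := by
        have e7 : (Set.univ : Set Conf) = {ω | exit R ω ≤ N0} ∪ {ω | N0 < exit R ω} := by
          ext ω
          simp only [Set.mem_univ, Set.mem_union, Set.mem_ofPred_eq, true_iff]
          exact le_or_gt _ _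
        rw [← probReal_univ (μ := perc), e7]
        exact measureReal_union_le _ _
      linarith
    have h12 := compl_lower R N0 p (by linarith) (by linarith)
    rw [h6] at h12
    refine le_trans ?_ h12
    have h13 : (1/2 : ℝ) ^ 4 ≤ (perc.real {ω | exit R ω ≤ N0}) ^ 4 :=
      pow_le_pow_left₀ (by norm_num) h11 4
    have h14 : Real.exp (-(16 * K0 * W)) ≤ Real.exp (-(8 * ε ^ 2 * N0)) := by
      apply Real.exp_le_exp.mpr
      have h15 := mul_le_mul_of_nonneg_left hN02 (sq_nonneg ε)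
      have h16 := mul_le_mul_of_nonneg_left h7 (by positivity : 0 ≤ 16 * K0)
      nlinarith
    calc min c1 (1/2) * Real.exp (-((4 * A + 16 * K) * u)) ≤ c1 * 1 := by
          apply mul_le_mul (min_le_left _ _) _ (Real.exp_pos _).le hc10.le
          apply Real.exp_le_one_iff.mpr
          have : 0 < (4 * A + 16 * K) * u := by positivity
          linarith
      _ = (1/2) * (1/2) ^ 4 * Real.exp (-(16 * K0 * W)) := by rw [hc1]; ring
      _ ≤ (1/2) * (perc.real {ω | exit R ω ≤ N0}) ^ 4 * Real.exp (-(8 * ε ^ 2 * N0)) := by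
          apply mul_le_mul _ h14 (Real.exp_pos _).le (by positivity)
          linarith

end Pool.Agent.Zk60.NC
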