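import Pool.Agent.Zk60.NC.Tree

/-!
The law of the stopped exploration path at parameter `p`.
-/

set_option autoImplicit false

namespace Pool.Agent.Zk60.NC

open H974 H984P H984H MeasureTheory Finset

/-- Bond percolation with parameter `p`. -/
noncomputable def law (p : unitInterval) : Measure Conf :=
  Measure.infinitePi (fun _ : Edg => ProbabilityTheory.bernoulliMeasure true false p)

/-- The critical parameter. -/
noncomputable def half : unitInterval := ⟨1/2, by norm_num, by norm_num⟩

instance (p : unitInterval) : IsProbabilityMeasure (law p) := by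
  unfold law; infer_instance

theorem bern_half : ProbabilityTheory.bernoulliMeasure true false half =
    (PMF.uniformOfFintype Bool).toMeasure := by
  apply Measure.ext_of_singleton
  intro b
  rw [PMF.toMeasure_apply_singleton _ _ (MeasurableSet.of_discrete)]
  have h1 : (PMF.uniformOfFintype Bool) b = 2⁻¹ := by simp
  rw [h1]
  have h2 : (ProbabilityTheory.bernoulliMeasure true false half).real {b} = 1/2 := by
    cases b
    · rw [ProbabilityTheory.bernoulliMeasure_real_apply_of_notMem_of_mem half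
        MeasurableSet.of_discrete (by simp) (by simp)]
      show (1:ℝ) - 1/2 = 1/2
      norm_num
    · rw [ProbabilityTheory.bernoulliMeasure_real_apply_of_mem_of_notMem half
        MeasurableSet.of_discrete (by simp) (by simp)]
      rfl
  rw [measureReal_def] at h2
  rw [← ENNReal.ofReal_toReal (measure_ne_top _ _), h2]
  rw [one_div, ENNReal.ofReal_inv_of_pos (by norm_num)]
  simp

theorem law_half : law half = perc := by
  unfold law perc
  rw [bern_half]

/-- Probability of a cylinder. -/
theorem cyl (p : unitInterval) (E : Finset Edg) (ω₀ : Conf) :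
    (law p).real {ω | ∀ e ∈ E, ω e = ω₀ e} =
      (p : ℝ) ^ (E.filter (fun e => ω₀ e = true)).card *
        (1 - (p : ℝ)) ^ (E.card - (E.filter (fun e => ω₀ e = true)).card) := by
  have e1 : {ω : Conf | ∀ e ∈ E, ω e = ω₀ e} = Set.pi (E : Set Edg) (fun e => {ω₀ e}) := by
    ext ω
    simp [Set.mem_pi]
  rw [measureReal_def, e1]
  unfold law
  rw [Measure.infinitePi_pi _ (fun _ _ => MeasurableSet.of_discrete), ENNReal.toReal_prod]
  have h1 : ∀ e ∈ E, ((ProbabilityTheory.bernoulliMeasure true false p) {ω₀ e}).toReal =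
      if ω₀ e = true then (p:ℝ) else 1 - (p:ℝ) := by
    intro e _
    cases h : ω₀ e
    · simp only [Bool.false_eq_true, if_false]
      exact ProbabilityTheory.bernoulliMeasure_real_apply_of_notMem_of_mem p
        MeasurableSet.of_discrete (by simp) (by simp)
    · simp only [if_true]
      exact ProbabilityTheory.bernoulliMeasure_real_apply_of_mem_of_notMem p
        MeasurableSet.of_discrete (by simp) (by simp)
  rw [Finset.prod_congr rfl h1, Finset.prod_ite, Finset.prod_const, Finset.prod_const]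
  congr 2
  have := Finset.card_filter_add_card_filter_not (s := E) (fun e => ω₀ e = true)
  omega

theorem meas_cyl (E : Finset Edg) (ω₀ : Conf) :
    MeasurableSet {ω : Conf | ∀ e ∈ E, ω e = ω₀ e} := by
  have e1 : {ω : Conf | ∀ e ∈ E, ω e = ω₀ e} = Set.pi (E : Set Edg) (fun e => {ω₀ e}) := by
    ext ω
    simp [Set.mem_pi]
  rw [e1]
  exact MeasurableSet.pi (Finset.countable_toSet _) (fun _ _ => MeasurableSet.of_discrete)

/-! ### stopping -/

/-- The first time at distance at least `R` from the origin. -/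
noncomputable def exit (R : ℝ) (ω : Conf) : ℕ := sInf {k | R ≤ ‖gam ω k‖}

/-- A bound for the norm of a point of the path below which the state belongs to a finite set. -/
theorem state_bound {R : ℝ} {σ : St} (h : ‖place σ‖ < R) :
    |σ.1.1| ≤ ⌈R⌉ + 1 ∧ |σ.1.2| ≤ ⌈R⌉ + 1 := by
  have hre := (Complex.abs_re_le_norm (place σ)).trans_lt h
  have him := (Complex.abs_im_le_norm (place σ)).trans_lt h
  obtain ⟨⟨x, y⟩, q⟩ := σ
  have hR := Int.le_ceil R
  rw [abs_lt] at hre him
  simp only [abs_le]
  cases q <;> simp only [place] at hre him <;> refine ⟨⟨?_, ?_⟩, ⟨?_, ?_⟩⟩ <;>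
    rify <;> linarith [hre.1, hre.2, him.1, him.2]

/-- All states close to the origin. -/
noncomputable def ball (R : ℝ) : Finset St :=
  ((Finset.Icc (-(⌈R⌉ + 1)) (⌈R⌉ + 1)) ×ˢ (Finset.Icc (-(⌈R⌉ + 1)) (⌈R⌉ + 1))) ×ˢ Finset.univ

theorem mem_ball {R : ℝ} {σ : St} (h : ‖place σ‖ < R) : σ ∈ ball R := by
  obtain ⟨h1, h2⟩ := state_bound h
  rw [abs_le] at h1 h2
  unfold ball
  simp only [Finset.mem_product, Finset.mem_Icc, Finset.mem_univ, and_true]
  exact ⟨h1, h2⟩

theorem exists_exit (R : ℝ) (ω : Conf) : ∃ k ≤ (ball R).card, R ≤ ‖gam ω k‖ := by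
  by_contra hcon
  push Not at hcon
  have h1 : ((range ((ball R).card + 1)).image (path ω)) ⊆ ball R := by
    intro σ hσ
    simp only [Finset.mem_image, Finset.mem_range] at hσ
    obtain ⟨k, hk, rfl⟩ := hσ
    exact mem_ball (hcon k (by omega))
  have h2 := Finset.card_le_card h1
  rw [Finset.card_image_of_injective _ (fun i j hij => by
    by_contra hne
    exact path_inj ω hne hij)] at h2
  simp at h2

theorem exit_spec (R : ℝ) (ω : Conf) : R ≤ ‖gam ω (exit R ω)‖ := by
  obtain ⟨k, -, hk⟩ := exists_exit R ω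
  exact Nat.sInf_mem (s := {k | R ≤ ‖gam ω k‖}) ⟨k, hk⟩

theorem exit_le (R : ℝ) (ω : Conf) : exit R ω ≤ (ball R).card := by
  obtain ⟨k, hk, hk'⟩ := exists_exit R ω
  exact (Nat.sInf_le (s := {k | R ≤ ‖gam ω k‖}) hk').trans hk

theorem lt_exit {R : ℝ} {ω : Conf} {k : ℕ} (h : k < exit R ω) : ‖gam ω k‖ < R := by
  by_contra hcon
  push Not at hcon
  exact absurd (Nat.sInf_le (s := {k | R ≤ ‖gam ω k‖}) hcon) (not_le.mpr h)

theorem exit_le_iff {R : ℝ} {ω : Conf} {n : ℕ} : exit R ω ≤ n ↔ R ≤ reach n ω := by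
  have H : (range (n + 1)).Nonempty := ⟨0, Finset.mem_range.mpr (Nat.succ_pos n)⟩
  have e : reach n ω = (range (n + 1)).sup' H (fun k => ‖gam ω k‖) := rfl
  rw [e]
  constructor
  · intro h
    exact (exit_spec R ω).trans
      (Finset.le_sup' (fun k => ‖gam ω k‖) (Finset.mem_range.mpr (Nat.lt_succ_of_le h)))
  · intro h
    obtain ⟨k, hk, hk'⟩ := Finset.exists_mem_eq_sup' H (fun k => ‖gam ω k‖)
    rw [hk'] at h
    rw [Finset.mem_range] at hk
    exact (Nat.sInf_le (s := {k | R ≤ ‖gam ω k‖}) h).trans (by omega)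

/-- The stopping time `min (exit R) N`. -/
noncomputable def tau (R : ℝ) (N : ℕ) (ω : Conf) : ℕ := min (exit R ω) N

theorem tau_congr {R : ℝ} {N : ℕ} {ω ω' : Conf}
    (h : ∀ k ≤ tau R N ω, path ω' k = path ω k) : tau R N ω' = tau R N ω := by
  have hg : ∀ k ≤ tau R N ω, gam ω' k = gam ω k := fun k hk => by
    unfold gam; rw [h k hk]
  unfold tau at h hg ⊢
  by_cases hc : exit R ω ≤ N
  · rw [min_eq_left hc] at h hg ⊢
    have h1 : exit R ω' ≤ exit R ω := by
      apply Nat.sInf_le (s := {k | R ≤ ‖gam ω' k‖})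
      show R ≤ ‖gam ω' (exit R ω)‖
      rw [hg _ le_rfl]
      exact exit_spec R ω
    have h2 : exit R ω ≤ exit R ω' := by
      by_contra hcon
      push Not at hcon
      have h3 := exit_spec R ω'
      rw [hg _ hcon.le] at h3
      exact absurd h3 (not_le.mpr (lt_exit hcon))
    omega
  · push Not at hc
    rw [min_eq_right hc.le] at h hg ⊢
    have h2 : N < exit R ω' := by
      by_contra hcon
      push Not at hcon
      have h3 := exit_spec R ω'
      rw [hg _ hcon] at h3
      exact absurd h3 (not_le.mpr (lt_exit (lt_of_le_of_lt hcon hc)))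
    omega

/-- The leaf: examined edges outside the axis, and the open ones. -/
noncomputable def leaf (R : ℝ) (N : ℕ) (ω : Conf) : Finset Edg × Finset Edg :=
  (expl ω (tau R N ω), (expl ω (tau R N ω)).filter (fun e => ω e = true))

theorem leaf_iff {R : ℝ} {N : ℕ} {ω ω₀ : Conf} :
    leaf R N ω = leaf R N ω₀ ↔ ∀ e ∈ expl ω₀ (tau R N ω₀), ω e = ω₀ e := by
  constructor
  · intro h e he
    unfold leaf at h
    rw [Prod.mk.injEq] at h
    obtain ⟨h1, h2⟩ := h
    have h3 : e ∈ (expl ω (tau R N ω)).filter (fun e => ω e = true) ↔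
        e ∈ (expl ω₀ (tau R N ω₀)).filter (fun e => ω₀ e = true) := by rw [h2]
    simp only [Finset.mem_filter, h1, he, true_and] at h3
    cases h4 : ω e <;> cases h5 : ω₀ e <;> simp_all
  · intro h
    have h1 := path_congr h
    have h2 := tau_congr h1
    have h3 : expl ω (tau R N ω) = expl ω₀ (tau R N ω₀) := by
      rw [h2]; exact expl_congr h1
    unfold leaf
    rw [Prod.mk.injEq]
    refine ⟨h3, ?_⟩
    rw [h3]
    apply Finset.filter_congr
    intro e he
    rw [h e he]

open Classical in
/-- All leaves. -/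
noncomputable def leaves (R : ℝ) (N : ℕ) : Finset (Finset Edg × Finset Edg) :=
  ((bigBox N).powerset ×ˢ (bigBox N).powerset).filter (fun x => ∃ ω, leaf R N ω = x)

theorem leaf_mem (R : ℝ) (N : ℕ) (ω : Conf) : leaf R N ω ∈ leaves R N := by
  classical
  unfold leaves
  rw [Finset.mem_filter]
  refine ⟨?_, ω, rfl⟩
  have h : expl ω (tau R N ω) ⊆ bigBox N :=
    (expl_mono ω (min_le_right _ _)).trans (expl_sub ω N)
  simp only [Finset.mem_product, Finset.mem_powerset, leaf]
  exact ⟨h, (Finset.filter_subset _ _).trans h⟩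

theorem exists_of_mem {R : ℝ} {N : ℕ} {x : Finset Edg × Finset Edg} (h : x ∈ leaves R N) :
    ∃ ω, leaf R N ω = x := by
  classical
  unfold leaves at h
  exact (Finset.mem_filter.mp h).2

/-- Number of open edges of a leaf. -/
def no (x : Finset Edg × Finset Edg) : ℕ := x.2.card

/-- Number of closed edges of a leaf. -/
def nc (x : Finset Edg × Finset Edg) : ℕ := x.1.card - x.2.card

theorem leaf_card (R : ℝ) (N : ℕ) (ω : Conf) :
    no (leaf R N ω) + nc (leaf R N ω) = (expl ω (tau R N ω)).card := by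
  unfold no nc leaf
  have := Finset.card_filter_le (expl ω (tau R N ω)) (fun e => ω e = true)
  simp only
  omega

theorem leaf_meas (R : ℝ) (N : ℕ) (x : Finset Edg × Finset Edg) :
    MeasurableSet {ω | leaf R N ω = x} := by
  by_cases h : ∃ ω₀, leaf R N ω₀ = x
  · obtain ⟨ω₀, rfl⟩ := h
    have : {ω | leaf R N ω = leaf R N ω₀} = {ω | ∀ e ∈ expl ω₀ (tau R N ω₀), ω e = ω₀ e} := by
      ext ω
      exact leaf_iff
    rw [this]
    exact meas_cyl _ _
  · have : {ω | leaf R N ω = x} = ∅ := by
      ext ω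
      simp only [Set.mem_ofPred_eq, Set.mem_empty_iff_false, iff_false]
      intro h'
      exact h ⟨ω, h'⟩
    rw [this]
    exact MeasurableSet.empty

theorem leaf_prob (R : ℝ) (N : ℕ) {x : Finset Edg × Finset Edg} (hx : x ∈ leaves R N)
    (p : unitInterval) : (law p).real {ω | leaf R N ω = x} = wt no nc p x := by
  obtain ⟨ω₀, rfl⟩ := exists_of_mem hx
  have : {ω | leaf R N ω = leaf R N ω₀} = {ω | ∀ e ∈ expl ω₀ (tau R N ω₀), ω e = ω₀ e} := by
    ext ω
    exact leaf_iff
  rw [this, cyl]
  rfl

/-- Events determined by the leaf. -/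
theorem event_leaf (R : ℝ) (N : ℕ) (T : Finset Edg × Finset Edg → Prop) [DecidablePred T]
    (p : unitInterval) : (law p).real {ω | T (leaf R N ω)} =
      ∑ x ∈ (leaves R N).filter T, wt no nc p x := by
  have e1 : {ω | T (leaf R N ω)} = ⋃ x ∈ (leaves R N).filter T, {ω | leaf R N ω = x} := by
    ext ω
    simp only [Set.mem_iUnion, Finset.mem_filter]
    constructor
    · intro h
      exact ⟨leaf R N ω, ⟨leaf_mem R N ω, h⟩, rfl⟩
    · rintro ⟨x, ⟨-, hT⟩, hω⟩
      have hω' : leaf R N ω = x := hω
      show T (leaf R N ω)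
      rw [hω']; exact hT
  rw [e1, measureReal_biUnion_finset]
  · refine Finset.sum_congr rfl (fun x hx => ?_)
    exact leaf_prob R N (Finset.mem_filter.mp hx).1 p
  · intro x _ y _ hxy
    rw [Function.onFun, Set.disjoint_left]
    intro ω h1 h2
    have h1' : leaf R N ω = x := h1
    have h2' : leaf R N ω = y := h2
    exact hxy (h1'.symm.trans h2')
  · intro x _
    exact leaf_meas R N x

theorem tree (R : ℝ) (N : ℕ) : Tree (leaves R N) no nc := by
  intro p h0 h1
  have h := event_leaf R N (fun _ => True) ⟨p, h0, h1⟩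
  simp only [Finset.filter_true] at h
  rw [← h]
  have : {ω : Conf | True} = Set.univ := by ext; simp
  rw [this]
  exact probReal_univ

theorem leaf_le {R : ℝ} {N : ℕ} : ∀ x ∈ leaves R N, no x + nc x ≤ N := by
  intro x hx
  obtain ⟨ω, rfl⟩ := exists_of_mem hx
  rw [leaf_card]
  exact (card_expl_le _ _).trans (min_le_right _ _)

end Pool.Agent.Zk60.NC
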