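import Pool.Agent.Zk60.NC.Fin
import Pool.Agent.H984R4.HN.FinalH

/-!
The scaling limits of the near-critical exploration path.
-/

set_option autoImplicit false

namespace Pool.Agent.Zk60.NC

open H974 H984P H984H MeasureTheory Finset Filter Topology

/-- The law, at parameter `p`, of the rescaled path `n ^ (-4/7) γ(n t)`, `0 ≤ t ≤ 1`. -/
noncomputable def lawP (p : unitInterval) (n : ℕ) : ProbabilityMeasure C(unitInterval, ℂ) :=
  ⟨(law p).map (curve n), Measure.isProbabilityMeasure_map (curve_meas n).aemeasurable⟩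

theorem lawP_int (p : unitInterval) (n : ℕ) {g : C(unitInterval, ℂ) → ℝ} (hg : Continuous g) :
    ∫ f, g f ∂(lawP p n : Measure C(unitInterval, ℂ)) = ∫ ω, g (curve n ω) ∂(law p) := by
  show ∫ f, g f ∂((law p).map (curve n)) = _
  rw [integral_map (curve_meas n).aemeasurable hg.aestronglyMeasurable]

theorem gam_far (ω : Conf) (k : ℕ) : ‖gam ω k‖ < 2 * k + 1 := by
  have h := path_near ω k
  unfold gam
  generalize path ω k = σ at h
  obtain ⟨⟨x, y⟩, q⟩ := σ
  obtain ⟨h1, h2⟩ := h
  simp only at h1 h2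
  have h1' : |(x : ℝ)| ≤ k := by exact_mod_cast h1
  have h2' : |(y : ℝ)| ≤ k := by exact_mod_cast h2
  refine (Complex.norm_le_abs_re_add_abs_im _).trans_lt ?_
  have a1 := abs_add_le (x : ℝ) (1/4)
  have a2 := abs_add_le (y : ℝ) (1/4)
  have a3 := abs_sub (x : ℝ) (1/4)
  have a4 := abs_sub (y : ℝ) (1/4)
  have a5 : |(1/4 : ℝ)| = 1/4 := by norm_num
  cases q <;> simp only [place] <;> linarith

theorem tau_big (n : ℕ) (ω : Conf) : tau (2 * n + 1) n ω = n := by
  apply min_eq_right
  by_contra hcon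
  push Not at hcon
  have h1 := exit_spec (2 * n + 1) ω
  have h2 := gam_far ω (exit (2 * n + 1) ω)
  have h3 : ((exit (2 * n + 1) ω : ℕ) : ℝ) ≤ n := by exact_mod_cast hcon.le
  linarith

theorem curve_of_leaf {n : ℕ} {ω ω' : Conf}
    (h : leaf (2 * n + 1) n ω' = leaf (2 * n + 1) n ω) : curve n ω' = curve n ω := by
  rw [leaf_iff, tau_big] at h
  have h1 := path_congr h
  have h2 : ∀ k ≤ n, gam ω' k = gam ω k := fun k hk => by
    unfold gam; rw [h1 k hk]
  unfold curve
  apply ContinuousMap.ext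
  intro s
  rw [H984N.pl_apply', H984N.pl_apply', h2 0 (Nat.zero_le _)]
  congr 1
  refine Finset.sum_congr rfl (fun k hk => ?_)
  rw [Finset.mem_range] at hk
  rw [h2 k hk.le, h2 (k + 1) (by omega)]

/-- Integrals of functions of the first `n` steps. -/
theorem int_leaf (n : ℕ) (g : C(unitInterval, ℂ) → ℝ) :
    ∃ G : Finset Edg × Finset Edg → ℝ, (∀ x ∈ leaves (2 * n + 1) n, ∃ f, G x = g f) ∧
      ∀ p : unitInterval, ∫ ω, g (curve n ω) ∂(law p) =
        ∑ x ∈ leaves (2 * n + 1) n, wt no nc p x * G x := by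
  classical
  let rep : Finset Edg × Finset Edg → Conf := fun x =>
    if h : ∃ ω, leaf (2 * n + 1) n ω = x then h.choose else fun _ => true
  have hrep : ∀ x ∈ leaves (2 * n + 1) n, leaf (2 * n + 1) n (rep x) = x := by
    intro x hx
    have h := exists_of_mem hx
    have e : rep x = h.choose := by
      show (if h : ∃ ω, leaf (2 * n + 1) n ω = x then h.choose else fun _ => true) = _
      rw [dif_pos h]
    rw [e]
    exact h.choose_spec
  refine ⟨fun x => g (curve n (rep x)), fun x _ => ⟨_, rfl⟩, fun p => ?_⟩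
  have h1 : ∀ ω, g (curve n ω) = ∑ x ∈ leaves (2 * n + 1) n,
      Set.indicator {ω | leaf (2 * n + 1) n ω = x} (fun _ => g (curve n (rep x))) ω := by
    intro ω
    rw [Finset.sum_eq_single (leaf (2 * n + 1) n ω)]
    · rw [Set.indicator_of_mem (by rfl)]
      rw [curve_of_leaf (hrep _ (leaf_mem _ _ ω))]
    · intro x _ hx
      rw [Set.indicator_of_notMem]
      intro h
      exact hx h.symm
    · intro h
      exact absurd (leaf_mem _ _ ω) h
  rw [integral_congr_ae (Eventually.of_forall h1), integral_finsetSum]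
  · refine Finset.sum_congr rfl (fun x hx => ?_)
    rw [integral_indicator (leaf_meas _ _ x), setIntegral_const, leaf_prob _ _ hx, smul_eq_mul]
  · intro x _
    exact (integrable_const _).indicator (leaf_meas _ _ x)

theorem int_diff (p : unitInterval) (h0 : 1/4 ≤ (p : ℝ)) (h1 : (p : ℝ) ≤ 3/4) (n : ℕ)
    (g : C(unitInterval, ℂ) → ℝ) {B : ℝ} (hB : ∀ f, |g f| ≤ B) :
    |∫ ω, g (curve n ω) ∂(law p) - ∫ ω, g (curve n ω) ∂perc| ≤
      B * (4 * |(p : ℝ) - 1/2| * Real.sqrt n) := by
  obtain ⟨G, hG, h⟩ := int_leaf n g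
  have hB0 : 0 ≤ B := (abs_nonneg _).trans (hB 0)
  have hT := tree (2 * (n : ℝ) + 1) n
  rw [← law_half, h p, h half, half_val, ← Finset.sum_sub_distrib]
  have h2 : |∑ x ∈ leaves (2 * n + 1) n, (wt no nc p x * G x - wt no nc (1/2) x * G x)| ≤
      B * (2 * tv (leaves (2 * n + 1) n) no nc p) := by
    have e : B * (2 * tv (leaves (2 * n + 1) n) no nc p) =
        ∑ x ∈ leaves (2 * (n : ℝ) + 1) n, |wt no nc p x - wt no nc (1/2) x| * B := by
      unfold tv
      rw [← Finset.sum_mul]; ring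
    rw [e]
    refine (Finset.abs_sum_le_sum_abs _ _).trans (Finset.sum_le_sum (fun x hx => ?_))
    rw [← sub_mul, abs_mul]
    apply mul_le_mul_of_nonneg_left _ (abs_nonneg _)
    obtain ⟨f, hf⟩ := hG x hx
    rw [hf]
    exact hB f
  refine h2.trans ?_
  apply mul_le_mul_of_nonneg_left _ hB0
  have h3 := tv_upper hT h0 h1
  have h4 : ∑ x ∈ leaves (2 * (n : ℝ) + 1) n, wt no nc (1/2) x * ((no x + nc x : ℕ) : ℝ) ≤ n := by
    calc _ ≤ ∑ x ∈ leaves (2 * (n : ℝ) + 1) n, wt no nc (1/2) x * (n : ℝ) := by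
          refine Finset.sum_le_sum (fun x hx => ?_)
          apply mul_le_mul_of_nonneg_left _ (wt_nonneg _ _ (by norm_num) (by norm_num) x)
          exact_mod_cast leaf_le x hx
      _ = n := by
          rw [← Finset.sum_mul, hT (1/2) (by norm_num) (by norm_num), one_mul]
  have h5 : tv (leaves (2 * (n : ℝ) + 1) n) no nc p ≤ 2 * |(p : ℝ) - 1/2| * Real.sqrt n := by
    apply sqle _ (by positivity)
    rw [mul_pow, mul_pow, sq_abs, Real.sq_sqrt (Nat.cast_nonneg _)]
    have h6 : 0 ≤ 4 * ((p : ℝ) - 1/2) ^ 2 := by positivity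
    nlinarith
  linarith

theorem int_close (n : ℕ → ℕ) (p : ℕ → unitInterval)
    (hp : Tendsto (fun i => |(p i : ℝ) - 1/2|) atTop (𝓝 0))
    (hnp : Tendsto (fun i => |(p i : ℝ) - 1/2| * Real.sqrt (n i)) atTop (𝓝 0))
    (g : BoundedContinuousFunction C(unitInterval, ℂ) ℝ) :
    Tendsto (fun i => ∫ f, g f ∂(lawP (p i) (n i) : Measure C(unitInterval, ℂ)) -
      ∫ f, g f ∂(lawH (n i) : Measure C(unitInterval, ℂ))) atTop (𝓝 0) := by
  have hb : Tendsto (fun i => ‖g‖ * (4 * |(p i : ℝ) - 1/2| * Real.sqrt (n i))) atTop (𝓝 0) := by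
    have := (hnp.const_mul (4 * ‖g‖))
    rw [mul_zero] at this
    refine this.congr (fun i => ?_)
    ring
  refine squeeze_zero_norm' ?_ hb
  have hev : ∀ᶠ i in atTop, |(p i : ℝ) - 1/2| ≤ 1/4 := hp.eventually (ge_mem_nhds (by norm_num))
  filter_upwards [hev] with i hi
  obtain ⟨h1, h2⟩ := abs_le.mp hi
  rw [lawP_int _ _ g.continuous, lawH_int _ g.continuous, Real.norm_eq_abs]
  exact int_diff (p i) (by linarith) (by linarith) (n i) g (fun f => g.norm_coe_le_norm f)

/-- In the window the scaling limits are those at criticality. -/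
theorem limits (n : ℕ → ℕ) (p : ℕ → unitInterval)
    (hp : Tendsto (fun i => |(p i : ℝ) - 1/2|) atTop (𝓝 0))
    (hnp : Tendsto (fun i => |(p i : ℝ) - 1/2| * Real.sqrt (n i)) atTop (𝓝 0))
    (μ : ProbabilityMeasure C(unitInterval, ℂ)) :
    Tendsto (fun i => lawP (p i) (n i)) atTop (𝓝 μ) ↔
      Tendsto (fun i => lawH (n i)) atTop (𝓝 μ) := by
  rw [ProbabilityMeasure.tendsto_iff_forall_integral_tendsto,
    ProbabilityMeasure.tendsto_iff_forall_integral_tendsto]
  constructor
  · intro h g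
    have h1 := (h g).sub (int_close n p hp hnp g)
    rw [sub_zero] at h1
    refine h1.congr (fun i => ?_)
    ring
  · intro h g
    have h1 := (h g).add (int_close n p hp hnp g)
    rw [add_zero] at h1
    refine h1.congr (fun i => ?_)
    ring

end Pool.Agent.Zk60.NC
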