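import Pool.Agent.Zk60.NC.Abs3
import Pool.Agent.H984R4.HN.Couple

/-!
The exploration path of the half-plane as a decision tree: examined edges, stopping, law of the
stopped path at parameter `p`.
-/

set_option autoImplicit false

namespace Pool.Agent.Zk60.NC

open H974 H984P H984H MeasureTheory Finset

/-! ### steps -/

/-- The edge examined at a state. -/
def exm (σ : St) : Edg := match σ.2 with
  | .ne => (σ.1.1, σ.1.2, false)
  | .nw => (σ.1.1 - 1, σ.1.2, true)
  | .sw => (σ.1.1, σ.1.2 - 1, false)
  | .se => (σ.1.1, σ.1.2, true)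

/-- The edges of the half-plane which are not on the real axis. -/
def Inn (e : Edg) : Prop := 0 ≤ e.2.1 ∧ ¬ (e.2.1 = 0 ∧ e.2.2 = true)

instance : DecidablePred Inn := fun _ => by unfold Inn; infer_instance

theorem mem_opn_inn {ω : Conf} {e : Edg} (h : Inn e) : e ∈ opn ω ↔ ω e = true := by
  unfold opn
  simp only [Set.mem_ofPred_eq]
  constructor
  · rintro (⟨h1, h2, _⟩ | ⟨_, _, h3⟩)
    · exact absurd ⟨h1, h2⟩ h.2
    · exact h3
  · intro h3
    exact Or.inr ⟨h.1, h.2, h3⟩

theorem mem_opn_out {ω : Conf} {e : Edg} (h : ¬ Inn e) :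
    e ∈ opn ω ↔ (e.2.1 = 0 ∧ e.2.2 = true ∧ e.1 < 0) := by
  unfold opn
  simp only [Set.mem_ofPred_eq]
  constructor
  · rintro (h1 | ⟨h1, h2, _⟩)
    · exact h1
    · exact absurd ⟨h1, h2⟩ h
  · intro h3
    exact Or.inl h3

/-- The next state if the examined edge is open. -/
def mvo (σ : St) : St := match σ.2 with
  | .ne => ((σ.1.1, σ.1.2 + 1), .se)
  | .nw => ((σ.1.1 - 1, σ.1.2), .ne)
  | .sw => ((σ.1.1, σ.1.2 - 1), .nw)
  | .se => ((σ.1.1 + 1, σ.1.2), .sw)

/-- The next state if the examined edge is closed. -/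
def rto (σ : St) : St := match σ.2 with
  | .ne => (σ.1, .nw)
  | .nw => (σ.1, .sw)
  | .sw => (σ.1, .se)
  | .se => (σ.1, .ne)

theorem step_open {G : Set Edg} {σ : St} (h : exm σ ∈ G) : step G σ = mvo σ := by
  obtain ⟨⟨x, y⟩, q⟩ := σ
  cases q <;> simp only [step, mvo, exm] at h ⊢ <;> rw [if_pos h]

theorem step_closed {G : Set Edg} {σ : St} (h : exm σ ∉ G) : step G σ = rto σ := by
  obtain ⟨⟨x, y⟩, q⟩ := σ
  cases q <;> simp only [step, rto, exm] at h ⊢ <;> rw [if_neg h]

theorem mvo_ne_rto (σ : St) : mvo σ ≠ rto σ := by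
  obtain ⟨⟨x, y⟩, q⟩ := σ
  cases q <;> simp [mvo, rto]

theorem path_zero (ω : Conf) : path ω 0 = ((0, 0), .ne) := rfl

theorem path_succ' (ω : Conf) (k : ℕ) : path ω (k + 1) = step (opn ω) (path ω k) := rfl

/-- The edges examined in the first `n` steps which are not on the axis. -/
noncomputable def expl (ω : Conf) (n : ℕ) : Finset Edg :=
  ((range n).image (fun k => exm (path ω k))).filter Inn

theorem mem_expl {ω : Conf} {n : ℕ} {e : Edg} :
    e ∈ expl ω n ↔ (∃ k < n, exm (path ω k) = e) ∧ Inn e := by
  unfold expl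
  simp only [Finset.mem_filter, Finset.mem_image, Finset.mem_range]

theorem expl_mono (ω : Conf) {m n : ℕ} (h : m ≤ n) : expl ω m ⊆ expl ω n := by
  intro e he
  rw [mem_expl] at he ⊢
  obtain ⟨⟨k, hk, hke⟩, hi⟩ := he
  exact ⟨⟨k, by omega, hke⟩, hi⟩

/-- The path is determined by the states of the examined edges. -/
theorem path_congr {ω ω' : Conf} {n : ℕ} (h : ∀ e ∈ expl ω n, ω' e = ω e) :
    ∀ k ≤ n, path ω' k = path ω k := by
  intro k
  induction k with
  | zero => intro _; rfl
  | succ k ih =>
    intro hk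
    have h1 := ih (by omega)
    rw [path_succ', path_succ', h1]
    have h2 : (exm (path ω k) ∈ opn ω' ↔ exm (path ω k) ∈ opn ω) := by
      by_cases hi : Inn (exm (path ω k))
      · rw [mem_opn_inn hi, mem_opn_inn hi, h _ (mem_expl.mpr ⟨⟨k, by omega, rfl⟩, hi⟩)]
      · rw [mem_opn_out hi, mem_opn_out hi]
    by_cases h3 : exm (path ω k) ∈ opn ω
    · rw [step_open h3, step_open (h2.mpr h3)]
    · rw [step_closed h3, step_closed (fun h => h3 (h2.mp h))]

theorem expl_congr {ω ω' : Conf} {n : ℕ} (h : ∀ k ≤ n, path ω' k = path ω k) :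
    expl ω' n = expl ω n := by
  ext e
  rw [mem_expl, mem_expl]
  constructor
  · rintro ⟨⟨k, hk, hke⟩, hi⟩
    exact ⟨⟨k, hk, by rw [← h k (by omega)]; exact hke⟩, hi⟩
  · rintro ⟨⟨k, hk, hke⟩, hi⟩
    exact ⟨⟨k, hk, by rw [h k (by omega)]; exact hke⟩, hi⟩

/-- The states of the examined edges are determined by the path. -/
theorem conf_of_path {ω ω' : Conf} {n : ℕ} (h : ∀ k ≤ n, path ω' k = path ω k) :
    ∀ e ∈ expl ω n, ω' e = ω e := by
  intro e he
  obtain ⟨⟨k, hk, hke⟩, hi⟩ := mem_expl.mp he
  have h0 := h k (by omega)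
  have h1 := h (k + 1) (by omega)
  rw [path_succ', path_succ', h0] at h1
  have h2 : (exm (path ω k) ∈ opn ω' ↔ exm (path ω k) ∈ opn ω) := by
    by_cases h3 : exm (path ω k) ∈ opn ω <;> by_cases h4 : exm (path ω k) ∈ opn ω'
    · simp [h3, h4]
    · rw [step_open h3, step_closed h4] at h1
      exact absurd h1.symm (mvo_ne_rto _)
    · rw [step_closed h3, step_open h4] at h1
      exact absurd h1 (mvo_ne_rto _)
    · simp [h3, h4]
  rw [hke, mem_opn_inn hi, mem_opn_inn hi] at h2
  cases h5 : ω e <;> cases h6 : ω' e <;> simp_all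

/-! ### number of examined edges -/

/-- Invariant of the states of the path. -/
def Inv (σ : St) : Prop := 0 ≤ σ.1.2 ∧ (σ.1.2 = 0 → (σ.2 = .sw ∨ σ.2 = .se) → 0 ≤ σ.1.1)

theorem inv_path (ω : Conf) (k : ℕ) : Inv (path ω k) := by
  induction k with
  | zero => exact ⟨le_rfl, fun _ _ => le_rfl⟩
  | succ k ih =>
    rw [path_succ']
    generalize path ω k = σ at ih
    obtain ⟨⟨x, y⟩, q⟩ := σ
    obtain ⟨h1, h2⟩ := ih
    simp only at h1 h2
    have hmem : ∀ e : Edg, e ∈ opn ω → 0 ≤ e.2.1 ∧ (e.2.1 = 0 → e.2.2 = true → e.1 < 0) := by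
      intro e he
      rcases he with ⟨a, b, c⟩ | ⟨a, b, c⟩
      · exact ⟨by omega, fun _ _ => c⟩
      · exact ⟨a, fun h h' => absurd ⟨h, h'⟩ b⟩
    have hneg : ∀ e : Edg, e ∉ opn ω → e.2.1 = 0 → e.2.2 = true → 0 ≤ e.1 := by
      intro e he h3 h4
      by_contra hcon
      exact he (Or.inl ⟨h3, h4, by omega⟩)
    by_cases h : exm ((x, y), q) ∈ opn ω
    · rw [step_open h]
      have h3 := hmem _ h
      cases q
      · refine ⟨?_, ?_⟩ <;> simp only [mvo] <;> intros <;> omega
      · refine ⟨?_, ?_⟩ <;> simp only [mvo]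
        · omega
        · intro _ hh; rcases hh with hh | hh <;> cases hh
      · simp only [exm] at h3
        refine ⟨?_, ?_⟩ <;> simp only [mvo]
        · omega
        · intro _ hh; rcases hh with hh | hh <;> cases hh
      · simp only [exm] at h3
        refine ⟨?_, ?_⟩ <;> simp only [mvo]
        · omega
        · intro hy _
          have := h3.2 hy trivial
          have := h2 hy (Or.inr rfl)
          omega
    · rw [step_closed h]
      have h3 := hneg _ h
      cases q
      · refine ⟨?_, ?_⟩ <;> simp only [rto]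
        · omega
        · intro _ hh; rcases hh with hh | hh <;> cases hh
      · simp only [exm] at h3
        refine ⟨?_, ?_⟩ <;> simp only [rto]
        · omega
        · intro hy _
          have := h3 hy trivial
          omega
      · refine ⟨?_, ?_⟩ <;> simp only [rto]
        · omega
        · intro hy _
          exact h2 hy (Or.inl rfl)
      · refine ⟨?_, ?_⟩ <;> simp only [rto]
        · omega
        · intro _ hh; rcases hh with hh | hh <;> cases hh

/-- The number of steps (at most) before an edge outside the axis is examined. -/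
def pot (σ : St) : ℕ := if Inn (exm σ) then 0 else match σ.2 with
  | .ne => 0
  | .nw => 3
  | .sw => 2
  | .se => 1

theorem pot_le (σ : St) : pot σ ≤ 3 := by
  unfold pot
  split_ifs
  · omega
  · obtain ⟨v, q⟩ := σ
    cases q <;> simp

theorem pot_step (ω : Conf) {σ : St} (hI : Inv σ) (hσ : ¬ Inn (exm σ)) :
    pot (step (opn ω) σ) + 1 ≤ pot σ := by
  obtain ⟨⟨x, y⟩, q⟩ := σ
  obtain ⟨h1, h2⟩ := hI
  simp only at h1 h2
  cases q
  · exfalso; apply hσ; unfold Inn exm; simp; exact h1
  · -- nw
    have e1 : pot ((x, y), Q4.nw) = 3 := by unfold pot; rw [if_neg hσ]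
    rw [e1]
    by_cases h : exm ((x, y), Q4.nw) ∈ opn ω
    · rw [step_open h]
      have : Inn (exm (mvo ((x, y), Q4.nw))) := by
        unfold Inn exm mvo; simp; exact h1
      unfold pot; rw [if_pos this]; omega
    · rw [step_closed h]
      unfold pot rto
      simp only
      split_ifs <;> omega
  · have e1 : pot ((x, y), Q4.sw) = 2 := by unfold pot; rw [if_neg hσ]
    rw [e1]
    have hy : y = 0 := by
      by_contra hy
      apply hσ
      unfold Inn exm
      simp
      omega
    have h : exm ((x, y), Q4.sw) ∉ opn ω := by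
      intro h
      rw [mem_opn_out hσ] at h
      simp [exm] at h
    rw [step_closed h]
    unfold pot rto
    simp only
    split_ifs <;> omega
  · have e1 : pot ((x, y), Q4.se) = 1 := by unfold pot; rw [if_neg hσ]
    rw [e1]
    have hy : y = 0 := by
      by_contra hy
      apply hσ
      unfold Inn exm
      simp
      omega
    have h : exm ((x, y), Q4.se) ∉ opn ω := by
      intro h
      rw [mem_opn_out hσ] at h
      simp only [exm] at h
      have := h2 hy (Or.inr rfl)
      omega
    rw [step_closed h]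
    have : Inn (exm (rto ((x, y), Q4.se))) := by
      unfold Inn exm rto; simp; exact h1
    unfold pot; rw [if_pos this]

theorem good_steps (ω : Conf) (m : ℕ) :
    m + pot (path ω m) ≤ 4 * ((range m).filter (fun k => Inn (exm (path ω k)))).card + 3 := by
  induction m with
  | zero => have := pot_le (path ω 0); simp; omega
  | succ m ih =>
    rw [Finset.range_add_one, Finset.filter_insert]
    by_cases h : Inn (exm (path ω m))
    · rw [if_pos h, Finset.card_insert_of_notMem (by simp)]
      have h1 := pot_le (path ω (m + 1))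
      have h2 : pot (path ω m) = 0 := by unfold pot; rw [if_pos h]
      omega
    · rw [if_neg h]
      have h1 := pot_step ω (inv_path ω m) h
      rw [← path_succ'] at h1
      omega

theorem card_expl (ω : Conf) (m : ℕ) : m ≤ 8 * (expl ω m).card + 3 := by
  have h1 := good_steps ω m
  have h2 : ((range m).filter (fun k => Inn (exm (path ω k)))).card ≤ 2 * (expl ω m).card := by
    have e1 : expl ω m =
        ((range m).filter (fun k => Inn (exm (path ω k)))).image (fun k => exm (path ω k)) := by
      ext e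
      rw [mem_expl]
      simp only [Finset.mem_image, Finset.mem_filter, Finset.mem_range]
      constructor
      · rintro ⟨⟨k, hk, hke⟩, hi⟩
        exact ⟨k, ⟨hk, by rw [hke]; exact hi⟩, hke⟩
      · rintro ⟨k, ⟨hk, hi⟩, hke⟩
        exact ⟨⟨k, hk, hke⟩, by rw [← hke]; exact hi⟩
    rw [e1]
    apply Finset.card_le_mul_card_image
    intro e _
    obtain ⟨x, y, b⟩ := e
    have hst : ∀ σ : St, exm σ = (x, y, b) → σ ∈ (if b then
        ({((x + 1, y), Q4.nw), ((x, y), Q4.se)} : Finset St) else
        ({((x, y), Q4.ne), ((x, y + 1), Q4.sw)} : Finset St)) := by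
      rintro ⟨⟨u, v⟩, q⟩ h
      cases q <;> simp only [exm, Prod.mk.injEq] at h <;> obtain ⟨h1, h2, h3⟩ := h <;>
        subst h1 <;> subst h2 <;> subst h3 <;> simp
    calc (Finset.filter (fun k => exm (path ω k) = (x, y, b))
          ((range m).filter (fun k => Inn (exm (path ω k))))).card
        ≤ (if b then ({((x + 1, y), Q4.nw), ((x, y), Q4.se)} : Finset St) else
            ({((x, y), Q4.ne), ((x, y + 1), Q4.sw)} : Finset St)).card := by
          apply Finset.card_le_card_of_injOn (fun k => path ω k)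
          · intro k hk
            simp only [Finset.coe_filter, Set.mem_ofPred_eq] at hk
            exact hst _ hk.2
          · intro i _ j _ hij
            by_contra hne
            exact path_inj ω hne hij
      _ ≤ 2 := by
          split_ifs
          · exact Finset.card_le_two
          · exact Finset.card_le_two
  omega

theorem card_expl_le (ω : Conf) (m : ℕ) : (expl ω m).card ≤ m := by
  unfold expl
  refine (Finset.card_filter_le _ _).trans ?_
  refine (Finset.card_image_le).trans ?_
  simp

/-! ### the box containing the path -/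

theorem step_near (G : Set Edg) (σ : St) :
    |(step G σ).1.1| ≤ |σ.1.1| + 1 ∧ |(step G σ).1.2| ≤ |σ.1.2| + 1 := by
  by_cases h : exm σ ∈ G
  · rw [step_open h]
    obtain ⟨⟨x, y⟩, q⟩ := σ
    cases q <;> simp only [mvo] <;> constructor <;>
      (try exact le_add_of_nonneg_right (by norm_num)) <;>
      (rcases abs_cases x with h1 | h1 <;> rcases abs_cases y with h2 | h2 <;>
        rw [abs_le] <;> constructor <;> omega)
  · rw [step_closed h]
    obtain ⟨⟨x, y⟩, q⟩ := σ
    cases q <;> simp only [rto] <;> constructor <;> linarith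

theorem path_near (ω : Conf) (k : ℕ) : |(path ω k).1.1| ≤ k ∧ |(path ω k).1.2| ≤ k := by
  induction k with
  | zero => simp [path_zero]
  | succ k ih =>
    have h := step_near (opn ω) (path ω k)
    rw [path_succ']
    push_cast
    constructor
    · linarith [h.1, ih.1]
    · linarith [h.2, ih.2]

/-- A finite box of edges. -/
noncomputable def bigBox (N : ℕ) : Finset Edg :=
  (Finset.Icc (-(N : ℤ) - 1) (N + 1)) ×ˢ ((Finset.Icc (-(N : ℤ) - 1) (N + 1)) ×ˢ Finset.univ)

theorem expl_sub (ω : Conf) (N : ℕ) : expl ω N ⊆ bigBox N := by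
  intro e he
  obtain ⟨⟨k, hk, hke⟩, -⟩ := mem_expl.mp he
  have h := path_near ω k
  rw [← hke]
  obtain ⟨h1, h2⟩ := h
  rw [abs_le] at h1 h2
  have hkN : (k : ℤ) ≤ N := by exact_mod_cast hk.le
  unfold bigBox
  generalize path ω k = σ at h1 h2
  obtain ⟨⟨x, y⟩, q⟩ := σ
  simp only at h1 h2
  cases q <;> simp only [exm, Finset.mem_product, Finset.mem_Icc, Finset.mem_univ, and_true] <;>
    omega

end Pool.Agent.Zk60.NC
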